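import Pool.Agent.K9h57.LC.Hilb

set_option autoImplicit false

/-!
# A generic member of a pencil has no new algebraic elements
-/

namespace Pool.Agent.K9h57.LC

open Module Polynomial IntermediateField

variable {κ E : Type} [Field κ] [Field E] [Algebra κ E]

theorem alg_of_hom {A B : Type} [Field A] [Field B] [Algebra A E] [Algebra B E] (f : A →+* B)
    (hf : ∀ a, algebraMap B E (f a) = algebraMap A E a) {g : E} (h : IsAlgebraic A g) :
    IsAlgebraic B g := by
  obtain ⟨p, hp, h0⟩ := h
  refine ⟨p.map f, (Polynomial.map_ne_zero_iff f.injective).mpr hp, ?_⟩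
  rw [aeval_def, eval₂_map, ← h0, aeval_def]
  congr 1
  exact RingHom.ext hf

open scoped IntermediateField.algebraAdjoinAdjoin in
attribute [local instance] Polynomial.algebra in
/-- If `κ` is algebraically closed in `F` then `κ(v)` is algebraically closed in `F(v)`. -/
theorem closed_adjoin (F : IntermediateField κ E)
    (hF : ∀ g ∈ F, IsAlgebraic κ g → ∃ a : κ, algebraMap κ E a = g) (v : E)
    (hv : Transcendental F v) (g : E) (hgF : g ∈ IntermediateField.adjoin F {v})
    (hg : IsAlgebraic (IntermediateField.adjoin κ {v}) g) : g ∈ IntermediateField.adjoin κ {v} := by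
  have h1 : IsAlgebraic (Algebra.adjoin κ {v}) g :=
    (IsFractionRing.isAlgebraic_iff (Algebra.adjoin κ {v}) (IntermediateField.adjoin κ {v}) E).mpr hg
  obtain ⟨y, hy0, hy⟩ := h1.exists_integral_multiple
  set h : E := y • g with hh
  have hyg : h = (y : E) * g := rfl
  -- the multiple is a polynomial in `v` over `F`
  have hyF : (y : E) ∈ IntermediateField.adjoin F {v} := by
    have h2 : (y : E) ∈ Algebra.adjoin κ {v} := y.2
    have h3 : Algebra.adjoin κ {v} ≤
        ((IntermediateField.adjoin F {v}).restrictScalars κ).toSubalgebra := by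
      rw [Algebra.adjoin_le_iff]
      exact subset_adjoin _ _
    exact h3 h2
  have hhF : h ∈ IntermediateField.adjoin F {v} := by
    rw [hyg]
    exact mul_mem hyF hgF
  have hint : IsIntegral (Algebra.adjoin F {v}) h := by
    obtain ⟨p, hp, h0⟩ := hy
    have hle : ∀ a : Algebra.adjoin κ {v}, (a : E) ∈ Algebra.adjoin F {v} := by
      intro a
      have h3 : Algebra.adjoin κ {v} ≤ (Algebra.adjoin F {v}).restrictScalars κ := by
        rw [Algebra.adjoin_le_iff]
        exact Algebra.subset_adjoin
      exact h3 a.2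
    let ψ : Algebra.adjoin κ {v} →+* Algebra.adjoin F {v} :=
      (algebraMap (Algebra.adjoin κ {v}) E).codRestrict (Algebra.adjoin F {v}).toSubring hle
    refine ⟨p.map ψ, hp.map _, ?_⟩
    rw [eval₂_map]
    exact h0
  have hinj : Function.Injective (aeval (R := F) v) := transcendental_iff_injective.mp hv
  have hIC : IsIntegrallyClosed (Algebra.adjoin F {v}) := by
    exact IsIntegrallyClosed.of_equiv ((AlgEquiv.ofInjective (aeval (R := F) v) hinj).trans
      (Subalgebra.equivOfEq _ _ (Algebra.adjoin_singleton_eq_range_aeval F v).symm)).toRingEquiv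
  have hint' : IsIntegral (Algebra.adjoin F {v})
      (⟨h, hhF⟩ : IntermediateField.adjoin F {v}) :=
    (isIntegral_algebraMap_iff (algebraMap (IntermediateField.adjoin F {v}) E).injective).mp hint
  obtain ⟨y', hy'⟩ := IsIntegrallyClosed.isIntegral_iff.mp hint'
  have hP : ∃ P : F[X], aeval v P = h := by
    have h2 : (y' : E) ∈ (aeval (R := F) v).range := by
      rw [← Algebra.adjoin_singleton_eq_range_aeval]
      exact y'.2
    obtain ⟨P, hP⟩ := h2
    refine ⟨P, ?_⟩
    have h3 := congrArg (fun z : IntermediateField.adjoin F {v} => (z : E)) hy'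
    exact hP.trans h3
  obtain ⟨P, hP⟩ := hP
  -- and it is a polynomial over `κ`
  let _ : Algebra κ[X] E := (aeval v : κ[X] →ₐ[κ] E).toRingHom.toAlgebra
  have hintX : IsIntegral κ[X] h := by
    obtain ⟨p, hp, h0⟩ := hy
    have hle : ∀ q : κ[X], aeval v q ∈ Algebra.adjoin κ {v} := by
      intro q
      rw [Algebra.adjoin_singleton_eq_range_aeval]
      exact ⟨q, rfl⟩
    let ψ : κ[X] →+* Algebra.adjoin κ {v} :=
      (aeval v : κ[X] →ₐ[κ] E).toRingHom.codRestrict (Algebra.adjoin κ {v}).toSubring hle
    have hsurj : Function.Surjective ψ := by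
      rintro ⟨z, hz⟩
      rw [Algebra.adjoin_singleton_eq_range_aeval] at hz
      obtain ⟨q, hq⟩ := hz
      exact ⟨q, Subtype.ext hq⟩
    obtain ⟨q, hq, -, hqm⟩ := lifts_and_natDegree_eq_and_monic
      (f := ψ) (p := p) (by
        rw [Polynomial.mem_lifts]
        exact Polynomial.map_surjective ψ hsurj p) hp
    refine ⟨q, hqm, ?_⟩
    rw [← hq, eval₂_map] at h0
    exact h0
  let f : F[X] →ₐ[κ[X]] E :=
    { (aeval v : F[X] →ₐ[F] E).toRingHom with
      commutes' := fun r => by
        change aeval v (algebraMap κ[X] F[X] r) = aeval v r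
        rw [Polynomial.algebraMap_def]
        exact aeval_map_algebraMap F v r }
  have hintP : IsIntegral κ[X] P := by
    have h2 : IsIntegral κ[X] (f P) := by
      change IsIntegral κ[X] (aeval v P)
      rw [hP]
      exact hintX
    exact (isIntegral_algHom_iff f hinj).mp h2
  have hcoeff : ∀ i, ∃ a : κ, algebraMap κ E a = (P.coeff i : E) := by
    intro i
    have h2 : IsIntegral κ (P.coeff i) := Polynomial.isIntegral_iff_isIntegral_coeff.mp hintP i
    have h3 : IsIntegral κ (algebraMap F E (P.coeff i)) := h2.algebraMap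
    exact hF _ (P.coeff i).2 h3.isAlgebraic
  have hh2 : h ∈ IntermediateField.adjoin κ {v} := by
    rw [← hP, aeval_eq_sum_range]
    refine sum_mem fun i _ => ?_
    obtain ⟨a, ha⟩ := hcoeff i
    have h4 : P.coeff i • v ^ i = algebraMap κ E a * v ^ i := by
      rw [ha, Algebra.smul_def]
      rfl
    rw [h4]
    exact mul_mem ((IntermediateField.adjoin κ {v}).algebraMap_mem a)
      (pow_mem (IntermediateField.mem_adjoin_simple_self κ v) i)
  have hy0' : (y : E) ≠ 0 := fun h5 => hy0 (Subtype.ext h5)
  have hye : (y : E) ∈ IntermediateField.adjoin κ {v} := algebra_adjoin_le_adjoin κ _ y.2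
  have e : g = h / (y : E) := by
    rw [hyg]
    field_simp
  rw [e]
  exact div_mem hh2 hye

/-- an elementary change of variables -/
theorem indep_update {j : ℕ} {u : Fin (j + 2) → E} (hu : AlgebraicIndependent κ u) (c : ℤ) :
    AlgebraicIndependent κ (Function.update u 0 (u 0 + c * u 1)) := by
  classical
  let φ : MvPolynomial (Fin (j + 2)) κ →ₐ[κ] MvPolynomial (Fin (j + 2)) κ :=
    MvPolynomial.aeval (Function.update (MvPolynomial.X (R := κ)) 0
      (MvPolynomial.X 0 + (c : MvPolynomial (Fin (j + 2)) κ) * MvPolynomial.X 1))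
  let φ' : MvPolynomial (Fin (j + 2)) κ →ₐ[κ] MvPolynomial (Fin (j + 2)) κ :=
    MvPolynomial.aeval (Function.update (MvPolynomial.X (R := κ)) 0
      (MvPolynomial.X 0 - (c : MvPolynomial (Fin (j + 2)) κ) * MvPolynomial.X 1))
  have h1 : φ'.comp φ = AlgHom.id κ _ := by
    apply MvPolynomial.algHom_ext
    intro i
    by_cases hi : i = 0
    · subst hi
      simp [φ, φ']
    · simp [φ, φ', Function.update_of_ne hi]
  have hφ : Function.Injective φ := by
    intro a b hab
    have h2 : (φ'.comp φ) a = (φ'.comp φ) b := by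
      rw [AlgHom.comp_apply, AlgHom.comp_apply, hab]
    rwa [h1] at h2
  have h3 : (MvPolynomial.aeval (Function.update u 0 (u 0 + c * u 1)) :
      MvPolynomial (Fin (j + 2)) κ →ₐ[κ] E) = (MvPolynomial.aeval u).comp φ := by
    apply MvPolynomial.algHom_ext
    intro i
    by_cases hi : i = 0
    · subst hi
      simp [φ]
    · simp [φ, Function.update_of_ne hi]
  have h4 : Function.Injective ((MvPolynomial.aeval u).comp φ) :=
    Function.Injective.comp (g := MvPolynomial.aeval u) hu hφ
  rw [← h3] at h4
  exact h4

/-- the algebraic closure of `A` in `K` -/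
def Cl (K A : IntermediateField κ E) : IntermediateField κ E :=
  K ⊓ (algebraicClosure A E).restrictScalars κ

theorem mem_Cl {K A : IntermediateField κ E} {g : E} :
    g ∈ Cl K A ↔ g ∈ K ∧ IsAlgebraic A g := by
  unfold Cl
  rw [IntermediateField.mem_inf, IntermediateField.mem_restrictScalars, mem_algebraicClosure_iff]

theorem le_Cl {K A : IntermediateField κ E} (h : A ≤ K) : A ≤ Cl K A := fun v hv =>
  mem_Cl.mpr ⟨h hv, isAlgebraic_algebraMap (⟨v, hv⟩ : A)⟩

theorem Cl_le (K A : IntermediateField κ E) : Cl K A ≤ K := fun _ hv => (mem_Cl.mp hv).1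

theorem alg_of_Cl {K A : IntermediateField κ E} {g : E} (h : IsAlgebraic (Cl K A) g) :
    IsAlgebraic A g := by
  have h1 : ∀ z : Cl K A, (z : E) ∈ algebraicClosure A E := fun z => by
    rw [mem_algebraicClosure_iff]
    exact (mem_Cl.mp z.2).2
  have h2 : IsAlgebraic (algebraicClosure A E) g :=
    alg_of_hom ((algebraMap (Cl K A) E).codRestrict (algebraicClosure A E).toSubring h1)
      (fun _ => rfl) h
  have : Algebra.IsAlgebraic A (algebraicClosure A E) := algebraicClosure.isAlgebraic A E
  exact h2.restrictScalars A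

attribute [irreducible] Cl

theorem in_compositum {M K : IntermediateField κ E} (hMK : M ≤ K) (S : Set (extendScalars hMK))
    (L : IntermediateField κ E) (hS : ∀ x ∈ S, (x : E) ∈ L) (hM : M ≤ L) :
    ∀ x ∈ IntermediateField.adjoin M S, (x : E) ∈ L := by
  intro x hx
  induction hx using IntermediateField.adjoin_induction with
  | mem x hx => exact hS x hx
  | algebraMap m => exact hM m.2
  | add x y _ _ hx hy => exact add_mem hx hy
  | inv x _ hx => exact inv_mem hx
  | mul x y _ _ hx hy => exact mul_mem hx hy

theorem bertini2 [CharZero κ] (K : IntermediateField κ E)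
    (hcl : ∀ g ∈ K, IsAlgebraic κ g → ∃ a : κ, algebraMap κ E a = g)
    (u : Fin 2 → E) (hu : AlgebraicIndependent κ u) (huK : ∀ i, u i ∈ K)
    (hfin : relrank (IntermediateField.adjoin κ (Set.range u)) K < Cardinal.aleph0) :
    ∃ c : ℤ, ∀ g ∈ K, IsAlgebraic (IntermediateField.adjoin κ {u 0 + c * u 1}) g →
      g ∈ IntermediateField.adjoin κ {u 0 + c * u 1} := by
  classical
  have : CharZero E := charZero_of_injective_algebraMap (algebraMap κ E).injective
  have hMK : IntermediateField.adjoin κ (Set.range u) ≤ K := by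
    rw [IntermediateField.adjoin_le_iff]
    rintro _ ⟨i, rfl⟩
    exact huK i
  have hfd : FiniteDimensional (IntermediateField.adjoin κ (Set.range u)) (extendScalars hMK) := by
    rw [FiniteDimensional, ← rank_lt_aleph0_iff, ← relrank_eq_rank_of_le hMK]
    exact hfin
  have : CharZero (IntermediateField.adjoin κ (Set.range u)) := inferInstance
  have : Finite (IntermediateField (IntermediateField.adjoin κ (Set.range u)) (extendScalars hMK)) :=
    Field.finite_intermediateField_of_exists_primitive_element _ _
      (Field.exists_primitive_element _ _)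
  obtain ⟨v, hv⟩ : ∃ v : ℤ → E, ∀ c, v c = u 0 + c * u 1 := ⟨_, fun _ => rfl⟩
  have hvK : ∀ c, v c ∈ K := fun c => by
    rw [hv]
    exact K.add_mem (huK 0) (K.mul_mem (intCast_mem K c) (huK 1))
  obtain ⟨c, c', hcc, hL⟩ := Finite.exists_ne_map_eq_of_infinite
    (fun c : ℤ => IntermediateField.adjoin (IntermediateField.adjoin κ (Set.range u))
      {g : extendScalars hMK | IsAlgebraic (IntermediateField.adjoin κ {v c}) (g : E)})
  refine ⟨c', fun g hg halg => ?_⟩
  rw [← hv] at halg ⊢
  have hcE : ((c : E) - c') ≠ 0 := by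
    rw [sub_ne_zero]
    exact_mod_cast hcc
  have e1 : u 1 = (v c - v c') / ((c : E) - c') := by
    rw [hv, hv]
    field_simp
    ring
  have e0 : u 0 = v c - c * u 1 := by
    rw [hv]
    ring
  -- `v c'` is transcendental over the algebraic closure of `κ(v c)`
  have htr : Transcendental (IntermediateField.adjoin κ {v c}) (v c') := by
    have h1 := indep_tail (indep_update hu c)
    have h2 := h1.transcendental 0
    have h3 : Function.update u 0 (u 0 + c * u 1) 0 = v c := by simp [hv]
    have h4 : Function.update u 0 (u 0 + c * u 1) (0 : Fin 1).succ = u 1 := by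
      rw [Function.update_of_ne (by simp)]
      rfl
    rw [h3, h4] at h2
    intro h5
    apply h2
    rw [e1]
    have h6 : IsAlgebraic (IntermediateField.adjoin κ {v c}) (v c) := isAlgebraic_algebraMap
      (⟨v c, IntermediateField.mem_adjoin_simple_self κ (v c)⟩ : IntermediateField.adjoin κ {v c})
    have h7 : IsAlgebraic (IntermediateField.adjoin κ {v c}) ((c : E) - c') := by
      have h8 := isAlgebraic_algebraMap (R := IntermediateField.adjoin κ {v c}) (A := E)
        ((c : IntermediateField.adjoin κ {v c}) - c')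
      simpa using h8
    rw [div_eq_mul_inv]
    exact (h6.sub h5).mul h7.inv
  have hle : IntermediateField.adjoin κ {v c} ≤ K := by
    rw [IntermediateField.adjoin_le_iff]
    rintro _ rfl
    exact hvK c
  obtain ⟨F, hF⟩ : ∃ F : IntermediateField κ E, F = Cl K (IntermediateField.adjoin κ {v c}) :=
    ⟨_, rfl⟩
  have htr' : Transcendental F (v c') := by
    rw [hF]
    exact fun h1 => htr (alg_of_Cl h1)
  have hFK : ∀ g ∈ F, g ∈ K := fun g hg => by
    rw [hF] at hg
    exact Cl_le _ _ hg
  have hvF : v c ∈ F := by
    rw [hF]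
    exact le_Cl hle (IntermediateField.mem_adjoin_simple_self κ (v c))
  have hSF : ∀ x : extendScalars hMK, IsAlgebraic (IntermediateField.adjoin κ {v c}) (x : E) →
      (x : E) ∈ F := fun x hx => by
    rw [hF]
    exact mem_Cl.mpr ⟨x.2, hx⟩
  clear hF
  obtain ⟨L, hL'⟩ : ∃ L : IntermediateField κ E,
      L = (IntermediateField.adjoin F {v c'}).restrictScalars κ := ⟨_, rfl⟩
  have hFL : ∀ g ∈ F, g ∈ L := fun g hg => by
    rw [hL']
    exact (IntermediateField.adjoin F {v c'}).algebraMap_mem ⟨g, hg⟩
  have hv' : v c' ∈ L := by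
    rw [hL']
    exact IntermediateField.mem_adjoin_simple_self F (v c')
  have hu1 : u 1 ∈ L := by
    rw [e1]
    exact div_mem (sub_mem (hFL _ hvF) hv') (sub_mem (intCast_mem _ _) (intCast_mem _ _))
  have hu0 : u 0 ∈ L := by
    rw [e0]
    exact sub_mem (hFL _ hvF) (mul_mem (intCast_mem _ _) hu1)
  have hML : IntermediateField.adjoin κ (Set.range u) ≤ L := by
    rw [IntermediateField.adjoin_le_iff]
    rintro _ ⟨i, rfl⟩
    rcases Fin.exists_fin_two.mp ⟨i, rfl⟩ with h | h
    · rw [h]; exact hu0
    · rw [h]; exact hu1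
  have hg' : g ∈ L := by
    have h2 : (⟨g, hg⟩ : extendScalars hMK) ∈
        IntermediateField.adjoin (IntermediateField.adjoin κ (Set.range u))
          {g : extendScalars hMK | IsAlgebraic (IntermediateField.adjoin κ {v c'}) (g : E)} :=
      subset_adjoin _ _ halg
    have hL2 : IntermediateField.adjoin (IntermediateField.adjoin κ (Set.range u))
      {g : extendScalars hMK | IsAlgebraic (IntermediateField.adjoin κ {v c}) (g : E)} =
      IntermediateField.adjoin (IntermediateField.adjoin κ (Set.range u))
      {g : extendScalars hMK | IsAlgebraic (IntermediateField.adjoin κ {v c'}) (g : E)} := hL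
    rw [← hL2] at h2
    exact in_compositum hMK _ L (fun x hx => hFL _ (hSF x hx)) hML _ h2
  rw [hL'] at hg'
  exact closed_adjoin F (fun g hg => hcl g (hFK g hg)) (v c') htr' g hg' halg

theorem indep_closure {j : ℕ} (K : IntermediateField κ E) (u : Fin (j + 2) → E)
    (hu : AlgebraicIndependent κ u) (huK : ∀ i, u i ∈ K) :
    AlgebraicIndependent
      (Cl K (IntermediateField.adjoin κ (Set.range fun i : Fin j => u i.succ.succ)))
      (fun i : Fin 2 => u (Fin.castLE (by omega) i)) := by
  have h1 : AlgebraicIndependent κ (Sum.elim (fun i : Fin 2 => u (Fin.castLE (by omega) i))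
      (fun i : Fin j => u i.succ.succ)) := by
    have h2 := hu.comp (Sum.elim (fun i : Fin 2 => (Fin.castLE (by omega) i : Fin (j + 2)))
        (fun i : Fin j => i.succ.succ)) (by
      rintro (a | a) (b | b) hab
      · simpa using hab
      · exfalso
        have h3 := congrArg Fin.val hab
        simp at h3
        omega
      · exfalso
        have h3 := congrArg Fin.val hab
        simp at h3
        omega
      · simpa using hab)
    have e : u ∘ (Sum.elim (fun i : Fin 2 => (Fin.castLE (by omega) i : Fin (j + 2)))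
        (fun i : Fin j => i.succ.succ)) = Sum.elim (fun i : Fin 2 => u (Fin.castLE (by omega) i))
      (fun i : Fin j => u i.succ.succ) := by
      funext a
      rcases a with a | a <;> rfl
    rwa [e] at h2
  have h3 := (AlgebraicIndependent.sumElim_iff.mp h1).2
  have h4 : AlgebraicIndependent
      (IntermediateField.adjoin κ (Set.range fun i : Fin j => u i.succ.succ))
      (fun i : Fin 2 => u (Fin.castLE (by omega) i)) := by
    open scoped IntermediateField.algebraAdjoinAdjoin in
    exact h3.extendScalars (IntermediateField.adjoin κ (Set.range fun i : Fin j => u i.succ.succ))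
  obtain ⟨A, hA⟩ : ∃ A : IntermediateField κ E,
    A = IntermediateField.adjoin κ (Set.range fun i : Fin j => u i.succ.succ) := ⟨_, rfl⟩
  rw [← hA] at h4 ⊢
  have hAK : A ≤ K := by
    rw [hA, IntermediateField.adjoin_le_iff]
    rintro _ ⟨i, rfl⟩
    exact huK _
  let _ : Algebra A (Cl K A) := (IntermediateField.inclusion (le_Cl hAK)).toRingHom.toAlgebra
  have : IsScalarTower A (Cl K A) E := IsScalarTower.of_algebraMap_eq fun _ => rfl
  have : Algebra.IsAlgebraic A (Cl K A) := ⟨fun x => by
    have h5 := (mem_Cl.mp x.2).2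
    exact (isAlgebraic_algebraMap_iff (algebraMap (Cl K A) E).injective).mp h5⟩
  exact h4.extendScalars (Cl K A)

/-- **A generic member of a pencil has no new algebraic elements.** -/
theorem bertini [CharZero κ] {j : ℕ} (K : IntermediateField κ E)
    (hcl : ∀ g ∈ K, IsAlgebraic κ g → ∃ a : κ, algebraMap κ E a = g)
    (u : Fin (j + 2) → E) (hu : AlgebraicIndependent κ u) (huK : ∀ i, u i ∈ K)
    (hfin : relrank (IntermediateField.adjoin κ (Set.range u)) K < Cardinal.aleph0) :
    ∃ c : ℤ, ∀ g ∈ K, IsAlgebraic (IntermediateField.adjoin κ {u 0 + c * u 1}) g →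
      g ∈ IntermediateField.adjoin κ {u 0 + c * u 1} := by
  have h1 := indep_closure K u hu huK
  obtain ⟨A, hA⟩ : ∃ A : IntermediateField κ E,
    A = IntermediateField.adjoin κ (Set.range fun i : Fin j => u i.succ.succ) := ⟨_, rfl⟩
  rw [← hA] at h1
  have hAK : A ≤ K := by
    rw [hA, IntermediateField.adjoin_le_iff]
    rintro _ ⟨i, rfl⟩
    exact huK _
  obtain ⟨F, hF⟩ : ∃ F : IntermediateField κ E, F = Cl K A := ⟨_, rfl⟩
  rw [← hF] at h1
  have hFK : F ≤ K := by
    rw [hF]
    exact Cl_le _ _
  have hcl2 : ∀ g ∈ extendScalars hFK, IsAlgebraic F g → ∃ a : F, algebraMap F E a = g := by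
    intro g hg halg
    have h2 : IsAlgebraic A g := by
      rw [hF] at halg
      exact alg_of_Cl halg
    have h3 : g ∈ F := by
      rw [hF]
      exact mem_Cl.mpr ⟨hg, h2⟩
    exact ⟨⟨g, h3⟩, rfl⟩
  have hAF : A ≤ F := by
    rw [hF]
    exact le_Cl hAK
  have hle : (IntermediateField.adjoin κ (Set.range u)).toSubfield ≤
      (IntermediateField.adjoin F
        (Set.range fun i : Fin 2 => u (Fin.castLE (by omega) i))).toSubfield := by
    have h2 : IntermediateField.adjoin κ (Set.range u) ≤ (IntermediateField.adjoin F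
        (Set.range fun i : Fin 2 => u (Fin.castLE (by omega) i))).restrictScalars κ := by
      rw [IntermediateField.adjoin_le_iff]
      rintro _ ⟨i, rfl⟩
      refine Fin.cases ?_ (fun i => Fin.cases ?_ (fun i => ?_) i) i
      · exact subset_adjoin F _ ⟨0, rfl⟩
      · exact subset_adjoin F _ ⟨1, rfl⟩
      · have h3 : u i.succ.succ ∈ F := by
          apply hAF
          rw [hA]
          exact subset_adjoin _ _ ⟨i, rfl⟩
        exact (IntermediateField.adjoin F
          (Set.range fun i : Fin 2 => u (Fin.castLE (by omega) i))).algebraMap_mem ⟨_, h3⟩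
    exact h2
  have hfin2 : relrank (IntermediateField.adjoin F
      (Set.range fun i : Fin 2 => u (Fin.castLE (by omega) i))) (extendScalars hFK) <
        Cardinal.aleph0 := by
    have h2 : Subfield.relrank (IntermediateField.adjoin F
        (Set.range fun i : Fin 2 => u (Fin.castLE (by omega) i))).toSubfield K.toSubfield ∣
        Subfield.relrank (IntermediateField.adjoin κ (Set.range u)).toSubfield K.toSubfield :=
      Subfield.relrank_dvd_of_le_left _ hle
    have h3 : Subfield.relrank (IntermediateField.adjoin κ (Set.range u)).toSubfield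
        K.toSubfield ≠ 0 := by
      rw [Subfield.relrank]
      exact rank_pos.ne'
    exact lt_of_le_of_lt (Cardinal.le_of_dvd h3 h2) hfin
  have : CharZero F := charZero_of_injective_algebraMap (algebraMap κ F).injective
  obtain ⟨c, hc⟩ := bertini2 (extendScalars hFK) hcl2 _ h1 (fun i => huK _) hfin2
  refine ⟨c, fun g hg halg => ?_⟩
  have hv : Transcendental F (u 0 + c * u 1) := by
    have h2 := (indep_update h1 c).transcendental 0
    rw [Function.update_self] at h2
    exact h2
  have hin : ∀ z : IntermediateField.adjoin κ {u 0 + c * u 1},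
      (z : E) ∈ IntermediateField.adjoin F {u 0 + c * u 1} := by
    intro z
    have h2 : IntermediateField.adjoin κ {u 0 + c * u 1} ≤
        (IntermediateField.adjoin F {u 0 + c * u 1}).restrictScalars κ := by
      rw [IntermediateField.adjoin_le_iff]
      exact subset_adjoin _ _
    exact h2 z.2
  have halg2 : IsAlgebraic (IntermediateField.adjoin F {u 0 + c * u 1}) g :=
    alg_of_hom ((algebraMap (IntermediateField.adjoin κ {u 0 + c * u 1}) E).codRestrict
      (IntermediateField.adjoin F {u 0 + c * u 1}).toSubring hin) (fun _ => rfl) halg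
  have hg2 : g ∈ IntermediateField.adjoin F {u 0 + c * u 1} := hc g hg halg2
  exact closed_adjoin F (fun g hg => hcl g (hFK hg)) _ hv g hg2 halg

end Pool.Agent.K9h57.LC
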