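import Mathlib

set_option autoImplicit false

/-!
# Elements which are bounded by a system of elements

`κ` and `E` are fields, `E` is a `κ`-algebra, `u i ∈ E` for `i` in `σ`. `Bd κ u m g` says that
`g T ^ m ∈ E[T]` is integral over `κ[T, u_i T]`; equivalently `g` is a zero of a monic polynomial
`X ^ e + a_1 X ^ (e - 1) + ⋯ + a_e` with `a_j ∈ κ[u]` of degree at most `m j` (`Bd_iff`).
-/

namespace Pool.Agent.K9h57.LC

open Polynomial

section sub

theorem int_mono {A : Type*} [CommRing A] {S S' : Subring A} (h : S ≤ S') {a : A}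
    (ha : IsIntegral S a) : IsIntegral S' a := by
  obtain ⟨p, hp, h0⟩ := ha
  refine ⟨p.map (Subring.inclusion h), hp.map _, ?_⟩
  rw [eval₂_map]
  exact h0

theorem int_trans {A : Type*} [CommRing A] {S S' : Subring A} (h : ∀ x ∈ S, IsIntegral S' x) {a : A}
    (ha : IsIntegral S a) : IsIntegral S' a := by
  have h1 : S ≤ (integralClosure S' A).toSubring := fun x hx => h x hx
  have h2 : IsIntegral (integralClosure S' A).toSubring a := int_mono h1 ha
  have h3 : IsIntegral (integralClosure S' A) a := h2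
  exact isIntegral_trans a h3

end sub

theorem coeff_sum_range {R : Type*} [CommRing R] (a : ℕ → R) (e i : ℕ) :
    (∑ j ∈ Finset.range e, C (a j) * X ^ j : R[X]).coeff i = if i < e then a i else 0 := by
  rw [finsetSum_coeff]
  simp only [coeff_C_mul_X_pow]
  rw [Finset.sum_ite_eq]
  simp only [Finset.mem_range]

theorem degree_sum_range {R : Type*} [CommRing R] (a : ℕ → R) (e : ℕ) :
    (∑ j ∈ Finset.range e, C (a j) * X ^ j : R[X]).degree < e := by
  rw [degree_lt_iff_coeff_zero]
  intro i hi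
  rw [coeff_sum_range, if_neg (by omega)]

variable {κ E : Type} [Field κ] [Field E] [Algebra κ E] {σ : Type}

/-- the ring `κ[T, u_i T]` in `E[T]` -/
noncomputable def Rs (κ : Type) {E : Type} [Field κ] [Field E] [Algebra κ E] {σ : Type}
    (u : σ → E) : Subring E[X] :=
  (Algebra.adjoin κ (insert X (Set.range fun i => C (u i) * X)) : Subalgebra κ E[X]).toSubring

theorem Rs_alg (u : σ → E) (a : κ) : (C (algebraMap κ E a) : E[X]) ∈ Rs κ u := by
  have h := (Algebra.adjoin κ (insert X (Set.range fun i => C (u i) * X)) :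
    Subalgebra κ E[X]).algebraMap_mem a
  have e : algebraMap κ E[X] a = C (algebraMap κ E a) := rfl
  rw [e] at h
  exact h

theorem Rs_X (u : σ → E) : (X : E[X]) ∈ Rs κ u :=
  Algebra.subset_adjoin (Set.mem_insert _ _)

theorem Rs_u (u : σ → E) (i : σ) : (C (u i) * X : E[X]) ∈ Rs κ u :=
  Algebra.subset_adjoin (Set.mem_insert_of_mem _ ⟨i, rfl⟩)

/-- the coefficients of the elements of `Rs` -/
theorem Rs_coeff (u : σ → E) (ρ : E[X]) (hρ : ρ ∈ Rs κ u) (d : ℕ) :
    ∃ a : MvPolynomial σ κ, a.totalDegree ≤ d ∧ MvPolynomial.aeval u a = ρ.coeff d := by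
  have hρ' : ρ ∈ (Algebra.adjoin κ (insert X (Set.range fun i => C (u i) * X)) :
    Subalgebra κ E[X]) := hρ
  clear hρ
  revert d
  induction hρ' using Algebra.adjoin_induction with
  | mem x hx =>
    intro d
    rcases hx with rfl | ⟨i, rfl⟩
    · rw [coeff_X]
      split_ifs with h
      · exact ⟨1, by simp, by simp⟩
      · exact ⟨0, by simp, by simp⟩
    · rw [coeff_C_mul, coeff_X]
      split_ifs with h
      · refine ⟨MvPolynomial.X i, ?_, by simp⟩
        rw [MvPolynomial.totalDegree_X]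
        omega
      · exact ⟨0, by simp, by simp⟩
  | algebraMap r =>
    intro d
    have e : algebraMap κ E[X] r = C (algebraMap κ E r) := rfl
    rw [e, coeff_C]
    split_ifs with h
    · exact ⟨MvPolynomial.C r, by simp, by simp⟩
    · exact ⟨0, by simp, by simp⟩
  | add x y _ _ hx hy =>
    intro d
    obtain ⟨a, ha, ha'⟩ := hx d
    obtain ⟨b, hb, hb'⟩ := hy d
    exact ⟨a + b, (MvPolynomial.totalDegree_add a b).trans (max_le ha hb), by
      rw [map_add, ha', hb', coeff_add]⟩
  | mul x y _ _ hx hy =>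
    intro d
    choose a ha ha' using hx
    choose b hb hb' using hy
    refine ⟨∑ p ∈ Finset.HasAntidiagonal.antidiagonal d, a p.1 * b p.2, ?_, ?_⟩
    · refine MvPolynomial.totalDegree_finsetSum_le fun p hp => ?_
      rw [Finset.HasAntidiagonal.mem_antidiagonal] at hp
      refine (MvPolynomial.totalDegree_mul _ _).trans ?_
      have := ha p.1
      have := hb p.2
      omega
    · rw [map_sum, coeff_mul]
      apply Finset.sum_congr rfl
      intro p _
      rw [map_mul, ha', hb']

/-- a polynomial of degree at most `d` gives an element of `Rs` -/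
theorem mem_Rs (u : σ → E) (a : MvPolynomial σ κ) (d : ℕ) (ha : a.totalDegree ≤ d) :
    (C (MvPolynomial.aeval u a) * X ^ d : E[X]) ∈ Rs κ u := by
  classical
  rw [a.as_sum, map_sum, map_sum, Finset.sum_mul]
  refine (Rs κ u).sum_mem fun m hm => ?_
  have hmd : m.sum (fun _ e => e) ≤ d := (MvPolynomial.le_totalDegree hm).trans ha
  rw [MvPolynomial.aeval_monomial, map_mul]
  have e : (C (m.prod fun i k => u i ^ k) * X ^ (m.sum fun _ e => e) : E[X]) =
      m.prod fun i k => (C (u i) * X) ^ k := by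
    simp only [Finsupp.prod, Finsupp.sum, map_prod, ← Finset.prod_pow_eq_pow_sum,
      ← Finset.prod_mul_distrib, map_pow, mul_pow]
  have e2 : (C (algebraMap κ E (MvPolynomial.coeff m a)) * C (m.prod fun i k => u i ^ k) * X ^ d : E[X]) =
      C (algebraMap κ E (MvPolynomial.coeff m a)) * (m.prod fun i k => (C (u i) * X) ^ k) *
        X ^ (d - m.sum (fun _ e => e)) := by
    rw [← e]
    have e3 : (X : E[X]) ^ d = X ^ (m.sum fun _ e => e) * X ^ (d - m.sum (fun _ e => e)) := by
      rw [← pow_add]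
      congr 1
      omega
    rw [e3]
    ring
  rw [e2]
  refine (Rs κ u).mul_mem ((Rs κ u).mul_mem (Rs_alg u _) ?_) ((Rs κ u).pow_mem (Rs_X u) _)
  exact (Rs κ u).prod_mem fun i _ => (Rs κ u).pow_mem (Rs_u u i) _

/-- `g` is bounded by the `m`-th powers of the `u i` -/
def Bd (κ : Type) {E : Type} [Field κ] [Field E] [Algebra κ E] {σ : Type} (u : σ → E) (m : ℕ)
    (g : E) : Prop := IsIntegral (Rs κ u) (C g * X ^ m : E[X])

theorem Bd_zero (u : σ → E) (m : ℕ) : Bd κ u m 0 := by
  unfold Bd
  rw [C_0, zero_mul]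
  exact isIntegral_zero

theorem Bd_add {u : σ → E} {m : ℕ} {g h : E} (hg : Bd κ u m g) (hh : Bd κ u m h) :
    Bd κ u m (g + h) := by
  unfold Bd at *
  rw [C_add, add_mul]
  exact hg.add hh

theorem Bd_mul {u : σ → E} {m m' : ℕ} {g h : E} (hg : Bd κ u m g) (hh : Bd κ u m' h) :
    Bd κ u (m + m') (g * h) := by
  unfold Bd at *
  have e : (C (g * h) * X ^ (m + m') : E[X]) = (C g * X ^ m) * (C h * X ^ m') := by
    rw [C_mul, pow_add]
    ring
  rw [e]
  exact hg.mul hh

theorem int_of_mem {A : Type*} [CommRing A] {S : Subring A} {a : A} (ha : a ∈ S) :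
    IsIntegral S a := isIntegral_algebraMap (R := S) (x := ⟨a, ha⟩)

theorem Bd_alg (u : σ → E) (m : ℕ) (a : κ) : Bd κ u m (algebraMap κ E a) :=
  int_of_mem ((Rs κ u).mul_mem (Rs_alg u a) ((Rs κ u).pow_mem (Rs_X u) m))

theorem Bd_smul {u : σ → E} {m : ℕ} {g : E} (a : κ) (hg : Bd κ u m g) : Bd κ u m (a • g) := by
  rw [Algebra.smul_def]
  have h := Bd_mul (Bd_alg u 0 a) hg
  rwa [zero_add] at h

theorem Bd_self (u : σ → E) (i : σ) : Bd κ u 1 (u i) := by
  unfold Bd
  rw [pow_one]
  exact int_of_mem (Rs_u u i)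

theorem Bd_one (u : σ → E) (m : ℕ) : Bd κ u m 1 := by
  have h := Bd_alg (κ := κ) u m 1
  rwa [map_one] at h

theorem Bd_mono {u : σ → E} {m m' : ℕ} (h : m ≤ m') {g : E} (hg : Bd κ u m g) : Bd κ u m' g := by
  have h1 := Bd_mul hg (Bd_one (κ := κ) u (m' - m))
  rw [mul_one, Nat.add_sub_cancel' h] at h1
  exact h1

/-- the equation -/
theorem Bd_iff (u : σ → E) (m : ℕ) (g : E) : Bd κ u m g ↔
    ∃ q : (MvPolynomial σ κ)[X], q.Monic ∧
      (∀ i, (q.coeff i).totalDegree ≤ m * (q.natDegree - i)) ∧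
      q.eval₂ (MvPolynomial.aeval u : MvPolynomial σ κ →ₐ[κ] E).toRingHom g = 0 := by
  constructor
  · rintro ⟨p, hp, h0⟩
    set e := p.natDegree with he
    choose a ha ha' using fun i : ℕ => Rs_coeff u (p.coeff i : E[X]) (p.coeff i).2 (m * (e - i))
    set q : (MvPolynomial σ κ)[X] := X ^ e + ∑ i ∈ Finset.range e, C (a i) * X ^ i with hq
    have hlt : (∑ i ∈ Finset.range e, C (a i) * X ^ i : (MvPolynomial σ κ)[X]).degree < e :=
      degree_sum_range a e
    have hqm : q.Monic := monic_X_pow_add hlt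
    have hqd : q.natDegree = e := by
      rw [hq]
      exact natDegree_eq_of_degree_eq_some (by
        rw [degree_add_eq_left_of_degree_lt (by rwa [degree_X_pow]), degree_X_pow])
    have hsum : ∀ i, (∑ j ∈ Finset.range e, C (a j) * X ^ j : (MvPolynomial σ κ)[X]).coeff i =
        if i < e then a i else 0 := fun i => coeff_sum_range a e i
    refine ⟨q, hqm, fun i => ?_, ?_⟩
    · rw [hqd, hq, coeff_add, hsum, coeff_X_pow]
      by_cases hie : i < e
      · rw [if_neg hie.ne, if_pos hie, zero_add]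
        exact ha i
      · rw [if_neg hie, add_zero]
        split_ifs with h
        · simp
        · simp
    · -- compare the coefficients of `X ^ (m e)`
      rw [hq, eval₂_add, eval₂_pow, eval₂_X, eval₂_finsetSum]
      have h1 : ∑ i ∈ Finset.range (e + 1), ((p.coeff i : E[X]) * (C g * X ^ m) ^ i) = 0 := by
        rw [← h0, eval₂_eq_sum_range]
        rfl
      have h2 := congrArg (fun f : E[X] => f.coeff (m * e)) h1
      simp only [finsetSum_coeff, coeff_zero] at h2
      have h3 : ∀ i ∈ Finset.range (e + 1), ((p.coeff i : E[X]) * (C g * X ^ m) ^ i).coeff (m * e) =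
          MvPolynomial.aeval u (a i) * g ^ i := by
        intro i hi
        have hi' : i ≤ e := Nat.lt_succ_iff.mp (Finset.mem_range.mp hi)
        rw [mul_pow, ← C_pow, ← pow_mul]
        have e1 : m * e = m * (e - i) + m * i := by
          rw [← Nat.mul_add]
          congr 1
          omega
        rw [e1, ← mul_assoc, coeff_mul_X_pow, mul_comm (p.coeff i : E[X]) (C (g ^ i)), coeff_C_mul,
          ha' i]
        ring
      rw [Finset.sum_congr rfl h3, Finset.sum_range_succ, add_comm] at h2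
      have h4 : MvPolynomial.aeval u (a e) = (1 : E) := by
        rw [ha' e]
        have h5 : p.coeff e = 1 := hp.coeff_natDegree
        rw [h5, Nat.sub_self, mul_zero]
        simp
      rw [h4, one_mul] at h2
      rw [← h2]
      congr 1
      apply Finset.sum_congr rfl
      intro i _
      rw [eval₂_mul, eval₂_C, eval₂_pow, eval₂_X]
      rfl
  · rintro ⟨q, hq, hdeg, h0⟩
    set e := q.natDegree with he
    have hmem : ∀ i, (C (MvPolynomial.aeval u (q.coeff i)) * X ^ (m * (e - i)) : E[X]) ∈ Rs κ u :=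
      fun i => mem_Rs u _ _ (hdeg i)
    set p : (Rs κ u)[X] := X ^ e + ∑ i ∈ Finset.range e,
      C (⟨_, hmem i⟩ : Rs κ u) * X ^ i with hp
    have hlt : (∑ i ∈ Finset.range e, C (⟨_, hmem i⟩ : Rs κ u) * X ^ i :
        (Rs κ u)[X]).degree < e := degree_sum_range (fun i => (⟨_, hmem i⟩ : Rs κ u)) e
    refine ⟨p, monic_X_pow_add hlt, ?_⟩
    rw [hp, eval₂_add, eval₂_pow, eval₂_X, eval₂_finsetSum]
    have h1 : ∑ i ∈ Finset.range (e + 1), MvPolynomial.aeval u (q.coeff i) * g ^ i = 0 := by
      rw [← h0, eval₂_eq_sum_range]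
      rfl
    rw [Finset.sum_range_succ, hq.coeff_natDegree, map_one, one_mul, add_comm] at h1
    have h2 : ∀ i ∈ Finset.range e, eval₂ (algebraMap (Rs κ u) E[X]) (C g * X ^ m)
        (C (⟨_, hmem i⟩ : Rs κ u) * X ^ i) =
          C (MvPolynomial.aeval u (q.coeff i) * g ^ i) * X ^ (m * e) := by
      intro i hi
      have hi' : i < e := Finset.mem_range.mp hi
      rw [eval₂_mul, eval₂_C, eval₂_pow, eval₂_X]
      change C (MvPolynomial.aeval u (q.coeff i)) * X ^ (m * (e - i)) * (C g * X ^ m) ^ i = _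
      have e1 : m * e = m * (e - i) + m * i := by
        rw [← Nat.mul_add]
        congr 1
        omega
      rw [e1, pow_add, mul_pow, C_mul, C_pow, pow_mul X m i]
      ring
    rw [Finset.sum_congr rfl h2, ← Finset.sum_mul, ← map_sum, mul_pow, ← C_pow, ← pow_mul,
      ← add_mul, ← C_add, h1, C_0, zero_mul]

end Pool.Agent.K9h57.LC
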