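import Pool.Agent.K9h57.LC.Step

set_option autoImplicit false

/-!
# The dimension of the spaces with prescribed poles
-/

namespace Pool.Agent.K9h57.LC

open Module Polynomial IntermediateField

variable {k E : Type} [Field k] [Field E] [Algebra k E]

theorem card_le_relrank {F K : IntermediateField k E} (hFK : F ≤ K) {ι : Type} [Fintype ι]
    (b : ι → E) (hb : ∀ i, b i ∈ K) (hli : LinearIndependent F b) :
    (Fintype.card ι : Cardinal) ≤ relrank F K := by
  rw [relrank_eq_rank_of_le hFK, ← Cardinal.mk_fintype]
  have h1 : LinearIndependent F (fun i => (⟨b i, hb i⟩ : extendScalars hFK)) := by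
    refine LinearIndependent.of_comp (extendScalars hFK).val.toLinearMap ?_
    exact hli
  exact h1.cardinal_le_rank

theorem step (K : IntermediateField k E) (w : ValuationSubring E → E) (x : E) (hx : x ∈ K)
    (d : ℕ) (hd : relrank (IntermediateField.adjoin k {x}) K ≤ d)
    (hfd : FiniteDimensional k (Mw K w)) :
    FiniteDimensional k (Mw K (fun O => w O * tw x O)) ∧
      finrank k (Mw K (fun O => w O * tw x O)) ≤ finrank k (Mw K w) + d := by
  classical
  set W : Submodule k E := Mw K (fun O => w O * tw x O) with hW
  set W₀ : Submodule k E := Mw K w with hW₀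
  have hle : W₀ ≤ W := Mw_mono K w (tw x) (tw_mem x)
  have hFK : IntermediateField.adjoin k {x} ≤ K := by
    rw [IntermediateField.adjoin_le_iff]
    rintro _ rfl
    exact hx
  set N : Submodule k W := W₀.comap W.subtype with hN
  have hrank : Module.rank k (W ⧸ N) ≤ d := by
    apply rank_le
    intro s hs
    choose b hb using fun i : s => Submodule.mkQ_surjective N (i : W ⧸ N)
    have h1 : LinearIndependent (IntermediateField.adjoin k {x}) (fun i : s => (b i : E)) := by
      refine indep_field K w x _ (fun i => (b i).2) ?_
      intro c hc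
      rw [Fintype.linearIndependent_iff] at hs
      apply hs c
      have h2 : (∑ i, c i • b i : W) ∈ N := by
        change ((∑ i, c i • b i : W) : E) ∈ W₀
        simpa using hc
      have h3 := (Submodule.Quotient.mk_eq_zero N).mpr h2
      rw [← h3]
      change _ = N.mkQ _
      rw [map_sum]
      apply Finset.sum_congr rfl
      intro i _
      rw [map_smul, hb i]
    have h4 := card_le_relrank hFK (fun i : s => (b i : E)) (fun i => (b i).2.1) h1
    have h5 := h4.trans hd
    rw [Fintype.card_coe] at h5
    exact_mod_cast h5
  have hfdQ : FiniteDimensional k (W ⧸ N) := by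
    rw [FiniteDimensional, ← rank_lt_aleph0_iff]
    exact lt_of_le_of_lt hrank (Cardinal.natCast_lt_aleph0)
  have hfN : FiniteDimensional k N := by
    have e : N ≃ₗ[k] W₀ := Submodule.comapSubtypeEquivOfLe hle
    exact LinearEquiv.finiteDimensional e.symm
  have hfW : FiniteDimensional k W := Module.Finite.of_submodule_quotient N
  refine ⟨hfW, ?_⟩
  have h6 := Submodule.finrank_quotient_add_finrank N
  have h7 : finrank k N = finrank k W₀ := LinearEquiv.finrank_eq (Submodule.comapSubtypeEquivOfLe hle)
  have h8 : finrank k (W ⧸ N) ≤ d := finrank_le_of_rank_le hrank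
  omega

/-- the space without poles consists of constants -/
theorem base (K : IntermediateField k E) (hk : ∀ g : E, IsAlgebraic k g → ∃ a : k, algebraMap k E a = g) :
    FiniteDimensional k (Mw K (fun _ => 1)) ∧ finrank k (Mw K (fun _ => 1)) ≤ 1 := by
  have hle : Mw K (fun _ => 1) ≤ Submodule.span k {(1 : E)} := by
    rintro g ⟨_, hg⟩
    obtain ⟨a, ha⟩ := hk g (isAlgebraic_of_forall g fun O hO => by simpa using hg O hO)
    rw [Submodule.mem_span_singleton]
    exact ⟨a, by rw [Algebra.smul_def, mul_one, ha]⟩
  have : FiniteDimensional k (Submodule.span k {(1 : E)}) := inferInstance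
  refine ⟨Submodule.finiteDimensional_of_le hle, (Submodule.finrank_mono hle).trans ?_⟩
  have h := finrank_span_le_card (R := k) ({(1 : E)} : Set E)
  simpa using h

/-- the weight which allows the poles of all `x i`, `i ∈ s` -/
noncomputable def tws {ι : Type} (x : ι → E) (s : Finset ι) (O : ValuationSubring E) : E :=
  ∏ i ∈ s, tw (x i) O

theorem tws_mem {ι : Type} (x : ι → E) (s : Finset ι) (O : ValuationSubring E) : tws x s O ∈ O :=
  O.toSubring.prod_mem fun _ _ => tw_mem _ O

/-- steps for all `i ∈ s` -/
theorem steps (K : IntermediateField k E) {ι : Type} [DecidableEq ι] (x : ι → E) (hx : ∀ i, x i ∈ K)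
    (d : ι → ℕ) (hd : ∀ i, relrank (IntermediateField.adjoin k {x i}) K ≤ d i) (s : Finset ι)
    (w : ValuationSubring E → E) (hfd : FiniteDimensional k (Mw K w)) :
    FiniteDimensional k (Mw K (fun O => w O * tws x s O)) ∧
      finrank k (Mw K (fun O => w O * tws x s O)) ≤ finrank k (Mw K w) + ∑ i ∈ s, d i := by
  induction s using Finset.induction_on with
  | empty =>
    have e : (fun O => w O * tws x ∅ O) = w := by
      funext O
      simp [tws]
    rw [e]
    exact ⟨hfd, by simp⟩
  | insert a s ha ih =>
    obtain ⟨h1, h2⟩ := ih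
    have h3 := step K (fun O => w O * tws x s O) (x a) (hx a) (d a) (hd a) h1
    have e : (fun O => w O * tws x (insert a s) O) = fun O => w O * tws x s O * tw (x a) O := by
      funext O
      simp only [tws, Finset.prod_insert ha]
      ring
    rw [e, Finset.sum_insert ha]
    exact ⟨h3.1, by omega⟩

end Pool.Agent.K9h57.LC
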