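import Pool.Agent.K9h57.LC.Dim
import Pool.Agent.TH379.HF.Sparse

set_option autoImplicit false

/-!
# Linear forms in logarithms in a field of transcendence degree one
-/

namespace Pool.Agent.K9h57.LC

open Module Polynomial IntermediateField
open Pool.Agent.H301R2.SSE (QB mem_QB Lt Lt_one Lt_log)

theorem const (g : ℂ) (h : IsAlgebraic QB g) : ∃ a : QB, algebraMap QB ℂ a = g := by
  have : Algebra.IsAlgebraic ℚ QB := algebraicClosure.isAlgebraic ℚ ℂ
  exact ⟨⟨g, mem_QB.mpr (h.restrictScalars ℚ)⟩, rfl⟩

/-- If the quotients `l i / l 0` lie in a space `U` and `U V ⊆ l 0 • Z`, then `Z` is larger than `U`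
by a quarter of the square of the dimension. -/
theorem growth {n : ℕ} (l : Fin (n + 1) → ℂ) (hl : ∀ i, l i ∈ Lt) (hli : LinearIndependent QB l)
    (U Z : Submodule QB ℂ) [FiniteDimensional QB U] [FiniteDimensional QB Z]
    (hU : ∀ i, l i / l 0 ∈ U) (hZ : ∀ u ∈ U, ∀ i, u * (l i / l 0) ∈ Z) :
    finrank QB U + (n + 1) ^ 2 / 4 ≤ finrank QB Z := by
  have h00 : l 0 ≠ 0 := hli.ne_zero 0
  set V : Submodule QB ℂ := Submodule.span QB (Set.range l) with hV
  have hfV : FiniteDimensional QB V := FiniteDimensional.span_of_finite QB (Set.finite_range l)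
  have hdV : finrank QB V = n + 1 := by
    rw [hV, finrank_span_eq_card hli, Fintype.card_fin]
  have hVL : V ≤ Lt := by
    rw [hV, Submodule.span_le]
    rintro _ ⟨i, rfl⟩
    exact hl i
  have hV0 : V ≠ ⊥ := by
    intro h
    rw [h, finrank_bot] at hdV
    omega
  have hVU : V ≤ U.map (LinearMap.mulLeft QB (l 0)) := by
    rw [hV, Submodule.span_le]
    rintro _ ⟨i, rfl⟩
    refine ⟨l i / l 0, hU i, ?_⟩
    change l 0 * (l i / l 0) = l i
    field_simp
  have hdU : n + 1 ≤ finrank QB U := by
    rw [← hdV]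
    exact (Submodule.finrank_mono hVU).trans (Submodule.finrank_map_le _ _)
  have h1 := Pool.Agent.TH379.HF.expand U V hVL hV0 (by omega)
  have hUV : U * V ≤ Z.map (LinearMap.mulLeft QB (l 0)) := by
    rw [Submodule.mul_le]
    intro u hu v hv
    rw [hV] at hv
    induction hv using Submodule.span_induction with
    | mem x hx =>
      obtain ⟨i, rfl⟩ := hx
      refine ⟨u * (l i / l 0), hZ u hu i, ?_⟩
      change l 0 * (u * (l i / l 0)) = u * l i
      field_simp
    | zero => rw [mul_zero]; exact Submodule.zero_mem _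
    | add x y _ _ hx hy => rw [mul_add]; exact Submodule.add_mem _ hx hy
    | smul a x _ hx =>
      rw [mul_smul_comm]
      exact Submodule.smul_mem _ _ hx
  rw [hdV] at h1
  exact h1.trans ((Submodule.finrank_mono hUV).trans (Submodule.finrank_map_le _ _))

/-- **Sums of degrees.** -/
theorem sum_degrees {n : ℕ} (l : Fin (n + 1) → ℂ) (hl : ∀ i, l i ∈ Lt)
    (hli : LinearIndependent QB l) (K : IntermediateField QB ℂ)
    (hK : ∀ i : Fin n, l i.succ / l 0 ∈ K) :
    (((n + 1) ^ 2 / 4 : ℕ) : Cardinal) ≤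
      ∑ i : Fin n, relrank (IntermediateField.adjoin QB {l i.succ / l 0}) K := by
  classical
  by_cases hfin : ∀ i : Fin n, relrank (IntermediateField.adjoin QB {l i.succ / l 0}) K <
      Cardinal.aleph0
  · choose d hd using fun i => Cardinal.lt_aleph0.mp (hfin i)
    have h00 : l 0 ≠ 0 := hli.ne_zero 0
    set x : Fin n → ℂ := fun i => l i.succ / l 0 with hx
    obtain ⟨b1, b2⟩ := base K const
    obtain ⟨s1, s2⟩ := steps K x hK d (fun i => (hd i).le) Finset.univ (fun _ => 1) b1
    set w : ValuationSubring ℂ → ℂ := fun O => 1 * tws x Finset.univ O with hw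
    obtain ⟨t1, t2⟩ := steps K x hK d (fun i => (hd i).le) Finset.univ w s1
    have hwm : ∀ O, w O ∈ O := fun O => by
      rw [hw]
      simp only [one_mul]
      exact tws_mem x _ O
    have hUmem : ∀ i : Fin (n + 1), l i / l 0 ∈ Mw K w := by
      intro i
      refine Fin.cases ?_ (fun j => ?_) i
      · rw [div_self h00]
        exact ⟨K.one_mem, fun O _ => by rw [one_mul]; exact hwm O⟩
      · refine ⟨hK j, fun O _ => ?_⟩
        have e : l j.succ / l 0 * w O = x j * tw (x j) O * ∏ i ∈ Finset.univ.erase j, tw (x i) O := by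
          rw [mul_assoc, Finset.mul_prod_erase Finset.univ (fun i => tw (x i) O) (Finset.mem_univ j)]
          simp only [hw, one_mul, tws]
          rfl
        rw [e]
        exact O.mul_mem _ _ (mul_tw_mem _ O) (O.toSubring.prod_mem fun _ _ => tw_mem _ O)
    have h1 := growth l hl hli (Mw K w) (Mw K (fun O => w O * tws x Finset.univ O)) hUmem (by
      intro u hu i
      have h2 := Mw_mul K w w (Submodule.mul_mem_mul hu (hUmem i))
      have e : (fun O => w O * w O) = fun O => w O * tws x Finset.univ O := by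
        funext O
        simp only [hw, one_mul]
      rwa [e] at h2)
    have h3 : (n + 1) ^ 2 / 4 ≤ ∑ i, d i := by omega
    calc (((n + 1) ^ 2 / 4 : ℕ) : Cardinal) ≤ ((∑ i, d i : ℕ) : Cardinal) := by exact_mod_cast h3
      _ = ∑ i : Fin n, relrank (IntermediateField.adjoin QB {l i.succ / l 0}) K := by
        rw [Nat.cast_sum]
        exact Finset.sum_congr rfl fun i _ => (hd i).symm
  · push Not at hfin
    obtain ⟨i, hi⟩ := hfin
    calc (((n + 1) ^ 2 / 4 : ℕ) : Cardinal) ≤ Cardinal.aleph0 := Cardinal.natCast_le_aleph0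
      _ ≤ relrank (IntermediateField.adjoin QB {l i.succ / l 0}) K := hi
      _ ≤ _ := Finset.single_le_sum
        (f := fun i : Fin n => relrank (IntermediateField.adjoin QB {l i.succ / l 0}) K)
        (fun _ _ => zero_le) (Finset.mem_univ i)

end Pool.Agent.K9h57.LC
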