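import Pool.Agent.K9h57.LC.Sharp
import Pool.Agent.K9h57.LC.Main

set_option autoImplicit false

/-!
# The degree of the locus of a point with coordinates in the space of linear forms in logarithms
-/

namespace Pool.Agent.K9h57.LC

open Module Polynomial IntermediateField
open Pool.Agent.H301R2.SSE (QB mem_QB Lt Lt_one Lt_log)

theorem alg_of_Bd_empty {κ E : Type} [Field κ] [Field E] [Algebra κ E] {u : Fin 0 → E} {m : ℕ}
    {g : E} (h : Bd κ u m g) : IsAlgebraic κ g := by
  apply Bd_zero_alg (u := u)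
  obtain ⟨q, hq, hd, h0⟩ := (Bd_iff u m g).mp h
  refine (Bd_iff u 0 g).mpr ⟨q, hq, fun i => ?_, h0⟩
  rw [MvPolynomial.eq_C_of_isEmpty (q.coeff i), MvPolynomial.totalDegree_C]
  exact Nat.zero_le _

/-- bounded elements are algebraic over the field generated by the bounds -/
theorem alg_of_Bd {κ E : Type} [Field κ] [Field E] [Algebra κ E] {j : ℕ} {u : Fin j → E} {m : ℕ}
    {g : E} (h : Bd κ u m g) : IsIntegral (IntermediateField.adjoin κ (Set.range u)) g := by
  obtain ⟨q, hq, h0⟩ := Bd_int h
  have hmem : ∀ p : MvPolynomial (Fin j) κ,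
      (MvPolynomial.aeval u : MvPolynomial (Fin j) κ →ₐ[κ] E) p ∈
        IntermediateField.adjoin κ (Set.range u) := by
    intro p
    have h1 : MvPolynomial.aeval u p ∈ Algebra.adjoin κ (Set.range u) := by
      rw [Algebra.adjoin_range_eq_range_aeval]
      exact ⟨p, rfl⟩
    exact algebra_adjoin_le_adjoin κ _ h1
  let ψ : MvPolynomial (Fin j) κ →+* IntermediateField.adjoin κ (Set.range u) :=
    (MvPolynomial.aeval u : MvPolynomial (Fin j) κ →ₐ[κ] E).toRingHom.codRestrict
      (IntermediateField.adjoin κ (Set.range u)).toSubring hmem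
  refine ⟨q.map ψ, hq.map _, ?_⟩
  rw [eval₂_map]
  exact h0

theorem relrank_lt {κ E : Type} [Field κ] [Field E] [Algebra κ E] {j n : ℕ} {u : Fin j → E}
    {x : Fin n → E} (hux : ∀ i, u i ∈ IntermediateField.adjoin κ (Set.range x))
    (hx : ∀ i, Bd κ u 1 (x i)) :
    relrank (IntermediateField.adjoin κ (Set.range u)) (IntermediateField.adjoin κ (Set.range x)) =
      (relfinrank (IntermediateField.adjoin κ (Set.range u))
        (IntermediateField.adjoin κ (Set.range x)) : ℕ) := by
  have hle : IntermediateField.adjoin κ (Set.range u) ≤ IntermediateField.adjoin κ (Set.range x) := by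
    rw [IntermediateField.adjoin_le_iff]
    rintro _ ⟨i, rfl⟩
    exact hux i
  have h1 : FiniteDimensional (IntermediateField.adjoin κ (Set.range u))
      (IntermediateField.adjoin (IntermediateField.adjoin κ (Set.range u)) (Set.range x)) := by
    apply finiteDimensional_adjoin
    rintro _ ⟨i, rfl⟩
    exact alg_of_Bd (hx i)
  have h2 : extendScalars hle ≤
      IntermediateField.adjoin (IntermediateField.adjoin κ (Set.range u)) (Set.range x) := by
    have h3 : IntermediateField.adjoin κ (Set.range x) ≤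
        (IntermediateField.adjoin (IntermediateField.adjoin κ (Set.range u))
          (Set.range x)).restrictScalars κ := by
      rw [IntermediateField.adjoin_le_iff]
      exact subset_adjoin _ _
    exact h3
  have h4 : FiniteDimensional (IntermediateField.adjoin κ (Set.range u)) (extendScalars hle) :=
    Submodule.finiteDimensional_of_le
      (S₁ := Subalgebra.toSubmodule (extendScalars hle).toSubalgebra)
      (S₂ := Subalgebra.toSubmodule (IntermediateField.adjoin
        (IntermediateField.adjoin κ (Set.range u)) (Set.range x)).toSubalgebra) h2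
  rw [relrank_eq_rank_of_le hle, relfinrank_eq_finrank_of_le hle, finrank_eq_rank]

/-- **The degree of the locus.** -/
theorem locus {n : ℕ} (l : Fin (n + 1) → ℂ) (hl : ∀ i, l i ∈ Lt) (hli : LinearIndependent QB l) :
    ∃ (t : ℕ) (c : Fin t → Fin n → ℤ),
      AlgebraicIndependent QB (fun j => ∑ i, (c j i : ℂ) * (l i.succ / l 0)) ∧
      (∀ i : Fin n, Bd QB (fun j => ∑ i, (c j i : ℂ) * (l i.succ / l 0)) 1 (l i.succ / l 0)) ∧
      (n + 1) ^ 2 / 4 ≤ t * relfinrank
        (IntermediateField.adjoin QB (Set.range fun j => ∑ i, (c j i : ℂ) * (l i.succ / l 0)))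
        (IntermediateField.adjoin QB (Set.range fun i : Fin n => l i.succ / l 0)) + t.choose 2 := by
  obtain ⟨t, c, hc1, hc2⟩ := normalise (κ := QB) (fun i : Fin n => l i.succ / l 0)
  refine ⟨t, c, hc1, hc2, ?_⟩
  have h00 : l 0 ≠ 0 := hli.ne_zero 0
  rcases t with _ | j
  · -- no algebraic points
    rcases n with _ | n
    · simp
    · exfalso
      have h1 : IsAlgebraic QB (l (0 : Fin (n + 1)).succ / l 0) := alg_of_Bd_empty (hc2 0)
      obtain ⟨a, ha⟩ := const _ h1
      have h2 : l (0 : Fin (n + 1)).succ = a • l 0 := by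
        rw [Algebra.smul_def, ha]
        field_simp
      have h3 : (1 : QB) = 0 := by
        have h4 := Fintype.linearIndependent_iff.mp hli
          (fun i => if i = (0 : Fin (n + 1)).succ then 1 else if i = 0 then -a else 0) (by
            rw [Fin.sum_univ_succ, Fin.sum_univ_succ, Finset.sum_eq_zero]
            · rw [h2]
              simp
            · intro i _
              simp [Fin.ext_iff]) (0 : Fin (n + 1)).succ
        simp at h4
      exact one_ne_zero h3
  · set u : Fin (j + 1) → ℂ := fun j => ∑ i, (c j i : ℂ) * (l i.succ / l 0) with hu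
    set K := IntermediateField.adjoin QB (Set.range fun i : Fin n => l i.succ / l 0) with hK
    have hxK : ∀ i : Fin n, l i.succ / l 0 ∈ K := fun i => subset_adjoin _ _ ⟨i, rfl⟩
    have huK : ∀ j, u j ∈ K := fun j => sum_mem fun i _ => K.mul_mem (intCast_mem K _) (hxK i)
    have hd := relrank_lt huK hc2
    set d := relfinrank (IntermediateField.adjoin QB (Set.range u)) K with hdef
    obtain ⟨f1, -⟩ := bound (j + 1) QB u hc1 K huK d hd.le 1
    obtain ⟨f2, -⟩ := bound (j + 1) QB u hc1 K huK d hd.le 2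
    have hUm : ∀ i, l i / l 0 ∈ Ms K u 1 := by
      intro i
      refine Fin.cases ?_ (fun i => ?_) i
      · rw [div_self h00]
        exact ⟨K.one_mem, Bd_one u 1⟩
      · exact ⟨hxK i, hc2 i⟩
    have hZ : ∀ g ∈ Ms K u 1, ∀ i, g * (l i / l 0) ∈ Ms K u 2 := by
      intro g hg i
      have h5 : Bd QB u (1 + 1) (g * (l i / l 0)) := Bd_mul hg.2 (hUm i).2
      exact ⟨K.mul_mem hg.1 (hUm i).1, h5⟩
    have h1 := growth l hl hli (Ms K u 1) (Ms K u 2) hUm hZ
    have h2 := diff' j QB u hc1 K huK (fun g _ hg => const g hg) d hd.le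
    omega

open Pool.Agent.TH379.HF (P1 P1_mul finrank_P1_le finrank_P1 finrank_P1_alg aeval_mem_P1)

/-- **Rational functions of one number.** -/
theorem rational_one {n : ℕ} (l : Fin (n + 1) → ℂ) (hl : ∀ i, l i ∈ Lt)
    (hli : LinearIndependent QB l) (θ : ℂ) (D : ℕ)
    (h : ∀ i : Fin n, ∃ A B : QB[X], A.natDegree ≤ D ∧ B.natDegree ≤ D ∧ aeval θ B ≠ 0 ∧
      aeval θ B * l i.succ = aeval θ A * l 0) : (n + 1) ^ 2 / 4 ≤ n * D := by
  classical
  have h00 : l 0 ≠ 0 := hli.ne_zero 0
  choose A B hA hB hB0 hAB using h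
  obtain ⟨b, hb⟩ : ∃ b : ℂ, b = ∏ i, aeval θ (B i) := ⟨_, rfl⟩
  have hb0 : b ≠ 0 := by
    rw [hb]
    exact Finset.prod_ne_zero_iff.mpr fun i _ => hB0 i
  have hdeg : ∀ s : Finset (Fin n), (∏ i ∈ s, B i).natDegree ≤ s.card * D := fun s =>
    (natDegree_prod_le s B).trans (by
      have := Finset.sum_le_card_nsmul s (fun i => (B i).natDegree) D (fun i _ => hB i)
      simpa using this)
  have hf1 : FiniteDimensional QB (P1 θ (n * D)) := FiniteDimensional.span_of_finite QB
    (Set.finite_range _)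
  have hf2 : FiniteDimensional QB (P1 θ (2 * (n * D))) := FiniteDimensional.span_of_finite QB
    (Set.finite_range _)
  have hinj : Function.Injective (LinearMap.mulLeft QB b⁻¹) := fun x y hxy => by
    have h1 : b⁻¹ * x = b⁻¹ * y := hxy
    exact mul_left_cancel₀ (inv_ne_zero hb0) h1
  have hUm : ∀ i, l i / l 0 ∈ (P1 θ (n * D)).map (LinearMap.mulLeft QB b⁻¹) := by
    intro i
    refine Fin.cases ?_ (fun i => ?_) i
    · refine ⟨aeval θ (∏ i, B i), aeval_mem_P1 θ _ _ ?_, ?_⟩
      · have h1 := hdeg Finset.univ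
        rwa [Finset.card_univ, Fintype.card_fin] at h1
      · change b⁻¹ * aeval θ (∏ i, B i) = _
        rw [map_prod, ← hb, inv_mul_cancel₀ hb0, div_self h00]
    · refine ⟨aeval θ (A i * ∏ j ∈ Finset.univ.erase i, B j), aeval_mem_P1 θ _ _ ?_, ?_⟩
      · refine natDegree_mul_le.trans ?_
        have h1 := hdeg (Finset.univ.erase i)
        rw [Finset.card_erase_of_mem (Finset.mem_univ i), Finset.card_univ, Fintype.card_fin] at h1
        have h2 := hA i
        have hn : 0 < n := i.pos
        obtain ⟨n', rfl⟩ : ∃ n', n = n' + 1 := ⟨n - 1, by omega⟩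
        rw [Nat.add_sub_cancel] at h1
        rw [Nat.add_mul, one_mul]
        omega
      · change b⁻¹ * aeval θ (A i * ∏ j ∈ Finset.univ.erase i, B j) = _
        have h1 : b = aeval θ (B i) * ∏ j ∈ Finset.univ.erase i, aeval θ (B j) := by
          rw [hb]
          exact (Finset.mul_prod_erase Finset.univ (fun j => aeval θ (B j)) (Finset.mem_univ i)).symm
        have h2 : l i.succ / l 0 = aeval θ (A i) / aeval θ (B i) := by
          rw [div_eq_div_iff h00 (hB0 i), mul_comm (l i.succ), hAB i]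
        have h3 : ∏ j ∈ Finset.univ.erase i, aeval θ (B j) ≠ 0 :=
          Finset.prod_ne_zero_iff.mpr fun j _ => hB0 j
        rw [map_mul, map_prod, h2, h1]
        have h4 := hB0 i
        field_simp
  have hZ : ∀ u ∈ (P1 θ (n * D)).map (LinearMap.mulLeft QB b⁻¹), ∀ i, u * (l i / l 0) ∈
      (P1 θ (2 * (n * D))).map (LinearMap.mulLeft QB (b⁻¹ * b⁻¹)) := by
    rintro _ ⟨p, hp, rfl⟩ i
    obtain ⟨q, hq, hqe⟩ := hUm i
    refine ⟨p * q, P1_mul θ (n * D) (Submodule.mul_mem_mul hp hq), ?_⟩
    rw [← hqe]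
    change b⁻¹ * b⁻¹ * (p * q) = b⁻¹ * p * (b⁻¹ * q)
    ring
  have h1 := growth l hl hli _ _ hUm hZ
  have h2 : finrank QB ((P1 θ (n * D)).map (LinearMap.mulLeft QB b⁻¹)) =
      finrank QB (P1 θ (n * D)) :=
    (LinearEquiv.finrank_eq (Submodule.equivMapOfInjective _ hinj (P1 θ (n * D)))).symm
  have h3 := Submodule.finrank_map_le (LinearMap.mulLeft QB (b⁻¹ * b⁻¹)) (P1 θ (2 * (n * D)))
  by_cases hθ : IsAlgebraic ℚ θ
  · have h4 := finrank_P1_alg θ hθ (2 * (n * D))
    have h5 : 1 ≤ finrank QB ((P1 θ (n * D)).map (LinearMap.mulLeft QB b⁻¹)) := by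
      rw [Submodule.one_le_finrank_iff]
      intro h6
      have h7 := hUm 0
      rw [h6, Submodule.mem_bot, div_self h00] at h7
      exact one_ne_zero h7
    omega
  · have h4 := finrank_P1 θ hθ (n * D)
    have h5 := finrank_P1_le θ (2 * (n * D))
    omega

end Pool.Agent.K9h57.LC
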