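import Pool.Agent.K9h57.LC.Tower

set_option autoImplicit false

/-!
# The growth of the spaces of bounded elements
-/

namespace Pool.Agent.K9h57.LC

open Module Polynomial IntermediateField

section step

variable {κ E : Type} [Field κ] [Field E] [Algebra κ E] {j : ℕ} {u : Fin (j + 1) → E}

theorem stepT (hu0 : u 0 ≠ 0) (K : IntermediateField κ E) (hK : ∀ i, u i ∈ K) (m : ℕ)
    (V : Submodule κ E) (hVle : V ≤ Ms K u m) (hfV : FiniteDimensional κ V)
    (hdiv : ∀ z ∈ K, (MvPolynomial.aeval u : MvPolynomial (Fin (j + 1)) κ →ₐ[κ] E).toRingHom.IsIntegralElem z →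
      Bd κ u m (u 0 * z) → u 0 * z ∈ V) (d : ℕ)
    (hFK : IntermediateField.adjoin κ {u 0} ≤ K)
    (htail : FiniteDimensional (IntermediateField.adjoin κ {u 0})
        (Ms (extendScalars hFK) (fun i : Fin j => u i.succ) m) ∧
      finrank (IntermediateField.adjoin κ {u 0})
        (Ms (extendScalars hFK) (fun i : Fin j => u i.succ) m) ≤ d) :
    FiniteDimensional κ (Ms K u m) ∧ finrank κ (Ms K u m) ≤ finrank κ V + d := by
  classical
  set W : Submodule κ E := Ms K u m with hW
  obtain ⟨hfd, hd⟩ := htail
  set N : Submodule κ W := V.comap W.subtype with hN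
  have hrank : Module.rank κ (W ⧸ N) ≤ d := by
    apply rank_le
    intro s hs
    choose b hb using fun i : s => Submodule.mkQ_surjective N (i : W ⧸ N)
    have h1 : LinearIndependent (IntermediateField.adjoin κ {u 0}) (fun i : s => (b i : E)) := by
      refine indepT hu0 K hK m V hdiv _ (fun i => (b i).2) ?_
      intro c hc
      rw [Fintype.linearIndependent_iff] at hs
      apply hs c
      have h2 : (∑ i, c i • b i : W) ∈ N := by
        change ((∑ i, c i • b i : W) : E) ∈ V
        simpa using hc
      have h3 := (Submodule.Quotient.mk_eq_zero N).mpr h2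
      rw [← h3]
      change _ = N.mkQ _
      rw [map_sum]
      apply Finset.sum_congr rfl
      intro i _
      rw [map_smul, hb i]
    have h4 : LinearIndependent (IntermediateField.adjoin κ {u 0})
        (fun i : s => (⟨(b i : E), ⟨(b i).2.1, Bd_tail (b i).2.2⟩⟩ :
          Ms (extendScalars hFK) (fun i : Fin j => u i.succ) m)) := by
      refine LinearIndependent.of_comp
        (Ms (extendScalars hFK) (fun i : Fin j => u i.succ) m).subtype ?_
      exact h1
    have h5 := h4.fintype_card_le_finrank
    rw [Fintype.card_coe] at h5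
    exact h5.trans hd
  have hfdQ : FiniteDimensional κ (W ⧸ N) := by
    rw [FiniteDimensional, ← rank_lt_aleph0_iff]
    exact lt_of_le_of_lt hrank (Cardinal.natCast_lt_aleph0)
  have hfN : FiniteDimensional κ N := by
    have e : N ≃ₗ[κ] V := Submodule.comapSubtypeEquivOfLe hVle
    exact LinearEquiv.finiteDimensional e.symm
  have hfW : FiniteDimensional κ W := Module.Finite.of_submodule_quotient N
  refine ⟨hfW, ?_⟩
  have h6 := Submodule.finrank_quotient_add_finrank N
  have h7 : finrank κ N = finrank κ V := LinearEquiv.finrank_eq (Submodule.comapSubtypeEquivOfLe hVle)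
  have h8 : finrank κ (W ⧸ N) ≤ d := finrank_le_of_rank_le hrank
  omega

end step

variable {E : Type} [Field E]

theorem bound : ∀ (j : ℕ) (κ : Type) [Field κ] [Algebra κ E] (u : Fin j → E)
    (_ : AlgebraicIndependent κ u) (K : IntermediateField κ E) (_ : ∀ i, u i ∈ K) (d : ℕ)
    (_ : relrank (IntermediateField.adjoin κ (Set.range u)) K ≤ d) (m : ℕ),
    FiniteDimensional κ (Ms K u m) ∧ finrank κ (Ms K u m) ≤ (j + m).choose j * d := by
  intro j
  induction j with
  | zero =>
    intro κ _ _ u hu K hK d hd m
    have e : IntermediateField.adjoin κ (Set.range u) = ⊥ := by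
      rw [Set.range_eq_empty, IntermediateField.adjoin_empty]
    rw [e, relrank_bot_left] at hd
    have hfK : FiniteDimensional κ K := by
      rw [FiniteDimensional, ← rank_lt_aleph0_iff]
      exact lt_of_le_of_lt hd (Cardinal.natCast_lt_aleph0)
    have hle : Ms K u m ≤ Subalgebra.toSubmodule K.toSubalgebra := fun g hg => hg.1
    have hfK' : FiniteDimensional κ (Subalgebra.toSubmodule K.toSubalgebra) := hfK
    refine ⟨Submodule.finiteDimensional_of_le hle, (Submodule.finrank_mono hle).trans ?_⟩
    rw [Nat.choose_zero_right, one_mul]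
    exact finrank_le_of_rank_le hd
  | succ j ih =>
    intro κ _ _ u hu K hK d hd m
    have hu0 : u 0 ≠ 0 := hu.ne_zero 0
    have hFK : IntermediateField.adjoin κ {u 0} ≤ K := by
      rw [IntermediateField.adjoin_le_iff]
      rintro _ rfl
      exact hK 0
    have htail : ∀ m, FiniteDimensional (IntermediateField.adjoin κ {u 0})
        (Ms (extendScalars hFK) (fun i : Fin j => u i.succ) m) ∧
      finrank (IntermediateField.adjoin κ {u 0})
        (Ms (extendScalars hFK) (fun i : Fin j => u i.succ) m) ≤ (j + m).choose j * d := by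
      intro m
      refine ih (IntermediateField.adjoin κ {u 0}) (fun i : Fin j => u i.succ) (indep_tail hu)
        (extendScalars hFK) (fun i => hK i.succ) d ?_ m
      refine le_trans (le_of_eq ?_) hd
      unfold IntermediateField.relrank
      rw [adjoin_tail]
      congr 1
    induction m with
    | zero =>
      have h1 := stepT hu0 K hK 0 ⊥ bot_le inferInstance ?_ _ hFK (htail 0)
      · refine ⟨h1.1, h1.2.trans ?_⟩
        rw [finrank_bot, zero_add, add_zero, Nat.choose_self, add_zero, Nat.choose_self]
      · intro z hz hint hb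
        have h2 : Bd κ u 0 z := Bd_div hu 0 (Bd_mono (by omega) hb) hint
        have h3 : IsAlgebraic κ z := Bd_zero_alg h2
        have h4 : IsAlgebraic κ (u 0 * z) := Bd_zero_alg hb
        by_cases hz0 : z = 0
        · rw [hz0, mul_zero]
          exact Submodule.zero_mem _
        · exfalso
          have h5 : IsAlgebraic κ (u 0) := by
            have h6 := h4.mul h3.inv
            rwa [mul_inv_cancel_right₀ hz0] at h6
          exact hu.transcendental 0 h5
    | succ m ihm =>
      obtain ⟨hf, hle⟩ := ihm
      have hm : (Ms K u m).map (LinearMap.mulLeft κ (u 0)) ≤ Ms K u (m + 1) := by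
        rintro _ ⟨g, hg, rfl⟩
        refine ⟨K.mul_mem (hK 0) hg.1, ?_⟩
        have h1 := Bd_mul (Bd_self (κ := κ) u 0) hg.2
        rwa [Nat.add_comm 1 m] at h1
      have h1 := stepT hu0 K hK (m + 1) ((Ms K u m).map (LinearMap.mulLeft κ (u 0))) hm
        inferInstance (by
          intro z hz hint hb
          exact ⟨z, ⟨hz, Bd_div hu 0 hb hint⟩, rfl⟩) _ hFK (htail (m + 1))
      refine ⟨h1.1, h1.2.trans ?_⟩
      have h2 := Submodule.finrank_map_le (LinearMap.mulLeft κ (u 0)) (Ms K u m)
      have e : j + 1 + (m + 1) = (j + (m + 1)) + 1 := by omega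
      rw [e, Nat.choose_succ_succ', Nat.add_mul]
      have e2 : j + 1 + m = j + (m + 1) := by omega
      rw [e2] at hle
      omega

/-- **Growth of the spaces of bounded elements.** -/
theorem diff (j : ℕ) (κ : Type) [Field κ] [Algebra κ E] (u : Fin (j + 1) → E)
    (hu : AlgebraicIndependent κ u) (K : IntermediateField κ E) (hK : ∀ i, u i ∈ K) (d : ℕ)
    (hd : relrank (IntermediateField.adjoin κ (Set.range u)) K ≤ d) (m : ℕ) :
    finrank κ (Ms K u (m + 1)) ≤ finrank κ (Ms K u m) + (j + (m + 1)).choose j * d := by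
  have hu0 : u 0 ≠ 0 := hu.ne_zero 0
  have hFK : IntermediateField.adjoin κ {u 0} ≤ K := by
    rw [IntermediateField.adjoin_le_iff]
    rintro _ rfl
    exact hK 0
  have htail := bound j (IntermediateField.adjoin κ {u 0}) (fun i : Fin j => u i.succ)
    (indep_tail hu) (extendScalars hFK) (fun i => hK i.succ) d (by
      refine le_trans (le_of_eq ?_) hd
      unfold IntermediateField.relrank
      rw [adjoin_tail]
      congr 1) (m + 1)
  obtain ⟨hf, -⟩ := bound (j + 1) κ u hu K hK d hd m
  have hm : (Ms K u m).map (LinearMap.mulLeft κ (u 0)) ≤ Ms K u (m + 1) := by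
    rintro _ ⟨g, hg, rfl⟩
    refine ⟨K.mul_mem (hK 0) hg.1, ?_⟩
    have h1 := Bd_mul (Bd_self (κ := κ) u 0) hg.2
    rwa [Nat.add_comm 1 m] at h1
  have h1 := stepT hu0 K hK (m + 1) ((Ms K u m).map (LinearMap.mulLeft κ (u 0))) hm
    inferInstance (by
      intro z hz hint hb
      exact ⟨z, ⟨hz, Bd_div hu 0 hb hint⟩, rfl⟩) _ hFK htail
  have h2 := Submodule.finrank_map_le (LinearMap.mulLeft κ (u 0)) (Ms K u m)
  have h3 := h1.2
  omega

end Pool.Agent.K9h57.LC
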