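import Pool.Agent.K9h57.LC.Main
import Pool.Agent.K9h57.LC.Bound

set_option autoImplicit false

/-!
# Curves in products of projective lines
-/

namespace Pool.Agent.K9h57.LC

open Module Polynomial IntermediateField

section

variable {k E : Type} [Field k] [Field E] [Algebra k E] {m : ℕ}

theorem tw_pow_mem (x : E) (O : ValuationSubring E) {e N : ℕ} (h : e ≤ N) :
    x ^ e * tw x O ^ N ∈ O := by
  obtain ⟨r, rfl⟩ := Nat.exists_eq_add_of_le h
  rw [pow_add, ← mul_assoc, ← mul_pow]
  exact O.mul_mem _ _ (O.toSubring.pow_mem (mul_tw_mem x O) _)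
    (O.toSubring.pow_mem (tw_mem x O) _)

theorem aeval_tws_mem (y : Fin m → E) (O : ValuationSubring E) (hO : Over k O)
    (a : MvPolynomial (Fin m) k) (N : ℕ) (ha : ∀ i, a.degreeOf i ≤ N) :
    MvPolynomial.aeval y a * tws y Finset.univ O ^ N ∈ O := by
  classical
  rw [MvPolynomial.aeval_def, MvPolynomial.eval₂_eq', Finset.sum_mul]
  refine O.toSubring.sum_mem fun e he => ?_
  rw [mul_assoc, tws, ← Finset.prod_pow, ← Finset.prod_mul_distrib]
  refine O.mul_mem _ _ (hO _) (O.toSubring.prod_mem fun i _ => tw_pow_mem _ _ ?_)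
  exact (MvPolynomial.degreeOf_le_iff.mp (ha i)) e he

/-- an element which satisfies an equation with coefficients of bounded degree in each variable has
no further poles -/
theorem mul_tws_mem (y : Fin m → E) (x : E) (q : (MvPolynomial (Fin m) k)[X]) (hq : q.Monic)
    (hd : ∀ j i, (q.coeff j).degreeOf i ≤ q.natDegree - j)
    (h0 : q.eval₂ (MvPolynomial.aeval y : MvPolynomial (Fin m) k →ₐ[k] E).toRingHom x = 0)
    (O : ValuationSubring E) (hO : Over k O) : x * tws y Finset.univ O ∈ O := by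
  classical
  obtain ⟨w, hw⟩ : ∃ w : E, w = tws y Finset.univ O := ⟨_, rfl⟩
  rw [← hw]
  set N := q.natDegree with hN
  have hc : ∀ j, MvPolynomial.aeval y (q.coeff j) * w ^ (N - j) ∈ O := fun j => by
    rw [hw]
    exact aeval_tws_mem y O hO _ _ (hd j)
  set p : O[X] := X ^ N + ∑ j ∈ Finset.range N, C (⟨_, hc j⟩ : O) * X ^ j with hp
  have hlt : (∑ j ∈ Finset.range N, C (⟨_, hc j⟩ : O) * X ^ j : O[X]).degree < N :=
    degree_sum_range (fun j => (⟨_, hc j⟩ : O)) N
  have hint : IsIntegral O (x * w) := by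
    refine ⟨p, monic_X_pow_add hlt, ?_⟩
    rw [hp, eval₂_add, eval₂_pow, eval₂_X, eval₂_finsetSum]
    have h1 : ∑ j ∈ Finset.range (N + 1), MvPolynomial.aeval y (q.coeff j) * x ^ j = 0 := by
      rw [← h0, eval₂_eq_sum_range]
      rfl
    rw [Finset.sum_range_succ, hq.coeff_natDegree, map_one, one_mul, add_comm] at h1
    have h2 : ∀ j ∈ Finset.range N, eval₂ (algebraMap O E) (x * w)
        (C (⟨_, hc j⟩ : O) * X ^ j) =
          MvPolynomial.aeval y (q.coeff j) * x ^ j * w ^ N := by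
      intro j hj
      have hj' : j < N := Finset.mem_range.mp hj
      rw [eval₂_mul, eval₂_C, eval₂_pow, eval₂_X]
      change MvPolynomial.aeval y (q.coeff j) * w ^ (N - j) * (x * w) ^ j = _
      have e1 : w ^ N = w ^ (N - j) * w ^ j := by
        rw [← pow_add]
        congr 1
        omega
      rw [e1, mul_pow]
      ring
    rw [Finset.sum_congr rfl h2, ← Finset.sum_mul, mul_pow, ← add_mul, h1, zero_mul]
  obtain ⟨z, hz⟩ := IsIntegrallyClosed.isIntegral_iff.mp hint
  rw [← hz]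
  exact z.2

end

open Pool.Agent.H301R2.SSE (QB mem_QB Lt Lt_one Lt_log)

/-- **Multidegrees.** -/
theorem multi_degrees {n m : ℕ} (l : Fin (n + 1) → ℂ) (hl : ∀ i, l i ∈ Lt)
    (hli : LinearIndependent QB l) (K : IntermediateField QB ℂ)
    (hK : ∀ i : Fin n, l i.succ / l 0 ∈ K) (y : Fin m → ℂ) (hy : ∀ j, y j ∈ K)
    (h : ∀ i : Fin n, ∃ q : (MvPolynomial (Fin m) QB)[X], q.Monic ∧
      (∀ a b, (q.coeff a).degreeOf b ≤ q.natDegree - a) ∧
      q.eval₂ (MvPolynomial.aeval y : MvPolynomial (Fin m) QB →ₐ[QB] ℂ).toRingHom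
        (l i.succ / l 0) = 0) :
    (((n + 1) ^ 2 / 4 : ℕ) : Cardinal) ≤
      ∑ j : Fin m, relrank (IntermediateField.adjoin QB {y j}) K := by
  classical
  by_cases hfin : ∀ j : Fin m, relrank (IntermediateField.adjoin QB {y j}) K < Cardinal.aleph0
  · choose d hd using fun j => Cardinal.lt_aleph0.mp (hfin j)
    have h00 : l 0 ≠ 0 := hli.ne_zero 0
    obtain ⟨b1, b2⟩ := base K const
    obtain ⟨s1, s2⟩ := steps K y hy d (fun i => (hd i).le) Finset.univ (fun _ => 1) b1
    set w : ValuationSubring ℂ → ℂ := fun O => 1 * tws y Finset.univ O with hw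
    obtain ⟨t1, t2⟩ := steps K y hy d (fun i => (hd i).le) Finset.univ w s1
    have hwm : ∀ O, w O ∈ O := fun O => by
      rw [hw]
      simp only [one_mul]
      exact tws_mem y _ O
    have hUmem : ∀ i : Fin (n + 1), l i / l 0 ∈ Mw K w := by
      intro i
      refine Fin.cases ?_ (fun j => ?_) i
      · rw [div_self h00]
        exact ⟨K.one_mem, fun O _ => by rw [one_mul]; exact hwm O⟩
      · refine ⟨hK j, fun O hO => ?_⟩
        obtain ⟨q, hq, hqd, hq0⟩ := h j
        have h1 := mul_tws_mem y _ q hq hqd hq0 O hO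
        simp only [hw, one_mul]
        exact h1
    have h1 := growth l hl hli (Mw K w) (Mw K (fun O => w O * tws y Finset.univ O)) hUmem (by
      intro u hu i
      have h2 := Mw_mul K w w (Submodule.mul_mem_mul hu (hUmem i))
      have e : (fun O => w O * w O) = fun O => w O * tws y Finset.univ O := by
        funext O
        simp only [hw, one_mul]
      rwa [e] at h2)
    have h3 : (n + 1) ^ 2 / 4 ≤ ∑ i, d i := by omega
    calc (((n + 1) ^ 2 / 4 : ℕ) : Cardinal) ≤ ((∑ i, d i : ℕ) : Cardinal) := by exact_mod_cast h3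
      _ = ∑ j : Fin m, relrank (IntermediateField.adjoin QB {y j}) K := by
        rw [Nat.cast_sum]
        exact Finset.sum_congr rfl fun i _ => (hd i).symm
  · push Not at hfin
    obtain ⟨i, hi⟩ := hfin
    calc (((n + 1) ^ 2 / 4 : ℕ) : Cardinal) ≤ Cardinal.aleph0 := Cardinal.natCast_le_aleph0
      _ ≤ relrank (IntermediateField.adjoin QB {y i}) K := hi
      _ ≤ _ := Finset.single_le_sum
        (f := fun j : Fin m => relrank (IntermediateField.adjoin QB {y j}) K)
        (fun _ _ => zero_le) (Finset.mem_univ i)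

open Pool.Agent.TH379.HF (P1 P1_mul finrank_P1_le finrank_P1 finrank_P1_alg aeval_mem_P1)

/-- **Rational curves.** -/
theorem rational_curve {n : ℕ} (l : Fin (n + 1) → ℂ) (hl : ∀ i, l i ∈ Lt)
    (hli : LinearIndependent QB l) (θ : ℂ) (D : ℕ) (A : Fin (n + 1) → QB[X])
    (hA : ∀ i, (A i).natDegree ≤ D) (hA0 : aeval θ (A 0) ≠ 0)
    (hAl : ∀ i, aeval θ (A 0) * l i = aeval θ (A i) * l 0) : (n + 1) ^ 2 / 4 ≤ D := by
  classical
  have h00 : l 0 ≠ 0 := hli.ne_zero 0
  obtain ⟨b, hb⟩ : ∃ b : ℂ, b = aeval θ (A 0) := ⟨_, rfl⟩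
  rw [← hb] at hA0 hAl
  have hf1 : FiniteDimensional QB (P1 θ D) := FiniteDimensional.span_of_finite QB
    (Set.finite_range _)
  have hf2 : FiniteDimensional QB (P1 θ (2 * D)) := FiniteDimensional.span_of_finite QB
    (Set.finite_range _)
  have hinj : Function.Injective (LinearMap.mulLeft QB b⁻¹) := fun x y hxy => by
    have h1 : b⁻¹ * x = b⁻¹ * y := hxy
    exact mul_left_cancel₀ (inv_ne_zero hA0) h1
  have hUm : ∀ i, l i / l 0 ∈ (P1 θ D).map (LinearMap.mulLeft QB b⁻¹) := by
    intro i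
    refine ⟨aeval θ (A i), aeval_mem_P1 θ _ _ (hA i), ?_⟩
    change b⁻¹ * aeval θ (A i) = _
    have h1 := hAl i
    rw [eq_div_iff h00, mul_assoc, ← h1]
    field_simp
  have hZ : ∀ u ∈ (P1 θ D).map (LinearMap.mulLeft QB b⁻¹), ∀ i, u * (l i / l 0) ∈
      (P1 θ (2 * D)).map (LinearMap.mulLeft QB (b⁻¹ * b⁻¹)) := by
    rintro _ ⟨p, hp, rfl⟩ i
    obtain ⟨q, hq, hqe⟩ := hUm i
    refine ⟨p * q, P1_mul θ D (Submodule.mul_mem_mul hp hq), ?_⟩
    rw [← hqe]
    change b⁻¹ * b⁻¹ * (p * q) = b⁻¹ * p * (b⁻¹ * q)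
    ring
  have h1 := growth l hl hli _ _ hUm hZ
  have h2 : finrank QB ((P1 θ D).map (LinearMap.mulLeft QB b⁻¹)) = finrank QB (P1 θ D) :=
    (LinearEquiv.finrank_eq (Submodule.equivMapOfInjective _ hinj (P1 θ D))).symm
  have h3 := Submodule.finrank_map_le (LinearMap.mulLeft QB (b⁻¹ * b⁻¹)) (P1 θ (2 * D))
  by_cases hθ : IsAlgebraic ℚ θ
  · have h4 := finrank_P1_alg θ hθ (2 * D)
    have h5 : 1 ≤ finrank QB ((P1 θ D).map (LinearMap.mulLeft QB b⁻¹)) := by
      rw [Submodule.one_le_finrank_iff]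
      intro h6
      have h7 := hUm 0
      rw [h6, Submodule.mem_bot, div_self h00] at h7
      exact one_ne_zero h7
    omega
  · have h4 := finrank_P1 θ hθ D
    have h5 := finrank_P1_le θ (2 * D)
    omega

/-- **Rational functions of one number.** -/
theorem rational_functions {n : ℕ} (l : Fin (n + 1) → ℂ) (hl : ∀ i, l i ∈ Lt)
    (hli : LinearIndependent QB l) (θ : ℂ) (D : ℕ)
    (h : ∀ i : Fin n, ∃ A B : QB[X], A.natDegree ≤ D ∧ B.natDegree ≤ D ∧ aeval θ B ≠ 0 ∧
      aeval θ B * l i.succ = aeval θ A * l 0) : (n + 1) ^ 2 / 4 ≤ n * D := by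
  classical
  choose A B hA hB hB0 hAB using h
  have hdeg : ∀ s : Finset (Fin n), (∏ i ∈ s, B i).natDegree ≤ s.card * D := fun s =>
    (natDegree_prod_le s B).trans (by
      have := Finset.sum_le_card_nsmul s (fun i => (B i).natDegree) D (fun i _ => hB i)
      simpa using this)
  refine rational_curve l hl hli θ (n * D)
    (Fin.cons (∏ i, B i) fun i => A i * ∏ j ∈ Finset.univ.erase i, B j) ?_ ?_ ?_
  · intro i
    refine Fin.cases ?_ (fun i => ?_) i
    · have h1 := hdeg Finset.univ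
      rwa [Finset.card_univ, Fintype.card_fin] at h1
    · rw [Fin.cons_succ]
      refine natDegree_mul_le.trans ?_
      have h1 := hdeg (Finset.univ.erase i)
      rw [Finset.card_erase_of_mem (Finset.mem_univ i), Finset.card_univ, Fintype.card_fin] at h1
      have h2 := hA i
      have hn : 0 < n := i.pos
      obtain ⟨n', rfl⟩ : ∃ n', n = n' + 1 := ⟨n - 1, by omega⟩
      rw [Nat.add_sub_cancel] at h1
      rw [Nat.add_mul, one_mul]
      omega
  · rw [Fin.cons_zero, map_prod]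
    exact Finset.prod_ne_zero_iff.mpr fun i _ => hB0 i
  · intro i
    refine Fin.cases ?_ (fun i => ?_) i
    · rw [Fin.cons_zero]
    · rw [Fin.cons_zero, Fin.cons_succ, map_mul, map_prod, map_prod]
      have h1 : ∏ j, aeval θ (B j) = aeval θ (B i) * ∏ j ∈ Finset.univ.erase i, aeval θ (B j) :=
        (Finset.mul_prod_erase Finset.univ (fun j => aeval θ (B j)) (Finset.mem_univ i)).symm
      rw [h1, mul_right_comm, hAB i]
      ring

end Pool.Agent.K9h57.LC
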