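import Pool.Agent.K9h57.LC.Hilb

set_option autoImplicit false

/-!
# Noether normalisation with integral linear combinations
-/

namespace Pool.Agent.K9h57.LC

open Module Polynomial

variable {κ E : Type} [Field κ] [Field E] [Algebra κ E]

theorem Bd_trans {σ τ : Type} {u : σ → E} {u' : τ → E} (h : ∀ i, Bd κ u' 1 (u i)) {m : ℕ} {g : E}
    (hg : Bd κ u m g) : Bd κ u' m g := by
  refine int_trans ?_ hg
  intro ρ hρ
  have hρ' : ρ ∈ (Algebra.adjoin κ (insert X (Set.range fun i => C (u i) * X)) :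
    Subalgebra κ E[X]) := hρ
  clear hρ
  induction hρ' using Algebra.adjoin_induction with
  | mem x hx =>
    rcases hx with rfl | ⟨i, rfl⟩
    · exact int_of_mem (Rs_X _)
    · have h1 := h i
      unfold Bd at h1
      rwa [pow_one] at h1
  | algebraMap r => exact int_of_mem (Rs_alg _ r)
  | add x y _ _ hx hy => exact hx.add hy
  | mul x y _ _ hx hy => exact hx.mul hy

theorem coeff_prod_lin {R : Type*} [CommRing R] {ι : Type*} (s : Finset ι) (β γ : ι → R)
    (m : ι → ℕ) :
    (∏ j ∈ s, (C (β j) * X + C (γ j)) ^ m j).natDegree ≤ ∑ j ∈ s, m j ∧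
    (∏ j ∈ s, (C (β j) * X + C (γ j)) ^ m j).coeff (∑ j ∈ s, m j) = ∏ j ∈ s, β j ^ m j := by
  classical
  induction s using Finset.induction_on with
  | empty => simp
  | insert a s ha ih =>
    obtain ⟨h1, h2⟩ := ih
    have h3 : ((C (β a) * X + C (γ a)) ^ m a).natDegree ≤ m a := by
      refine natDegree_pow_le_of_le (m a) (natDegree_linear_le) |>.trans ?_
      omega
    have h4 : ((C (β a) * X + C (γ a)) ^ m a).coeff (m a) = β a ^ m a := by
      have h5 := coeff_pow_of_natDegree_le (p := C (β a) * X + C (γ a)) (m := m a) (n := 1)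
        natDegree_linear_le
      rw [mul_one] at h5
      rw [h5]
      simp
    rw [Finset.prod_insert ha, Finset.sum_insert ha, Finset.prod_insert ha]
    exact ⟨natDegree_mul_le_of_le h3 h1, by rw [coeff_mul_add_eq_of_natDegree_le h3 h1, h4, h2]⟩

theorem Bd_of_rel {τ : Type} {s : ℕ} {v : Fin (s + 1) → E} {b : Fin (s + 1) → κ} {u' : τ → E}
    {w : E} (P : MvPolynomial (Fin (s + 1)) κ)
    (hP : MvPolynomial.aeval (fun j => algebraMap κ E (b j) * w + v j) P = 0)
    (hb : MvPolynomial.eval b (MvPolynomial.homogeneousComponent P.totalDegree P) ≠ 0)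
    (hv : ∀ j, (C (v j) * X : E[X]) ∈ Rs κ u') : Bd κ u' 1 w := by
  classical
  set D := P.totalDegree with hD
  set h := MvPolynomial.eval b (MvPolynomial.homogeneousComponent D P) with hh
  have hA : ∀ m : Fin (s + 1) →₀ ℕ,
      (C (algebraMap κ E (MvPolynomial.coeff m P)) * X ^ (D - m.degree) : E[X]) ∈ Rs κ u' :=
    fun m => (Rs κ u').mul_mem (Rs_alg u' _) ((Rs κ u').pow_mem (Rs_X u') _)
  set A : (Fin (s + 1) →₀ ℕ) → Rs κ u' := fun m => ⟨_, hA m⟩ with hAdef
  set B : Fin (s + 1) → Rs κ u' := fun j => ⟨_, Rs_alg u' (b j)⟩ with hBdef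
  set G : Fin (s + 1) → Rs κ u' := fun j => ⟨_, hv j⟩ with hGdef
  set Q : (Rs κ u')[X] := ∑ m ∈ P.support,
    C (A m) * ∏ j, (C (B j) * X + C (G j)) ^ (m j) with hQ
  have hdeg : ∀ m ∈ P.support, m.degree ≤ D := fun m hm => by
    have h1 := MvPolynomial.le_totalDegree hm
    exact h1
  have hsum : ∀ m : Fin (s + 1) →₀ ℕ, ∑ j, m j = m.degree := by
    intro m
    rw [Finsupp.degree_eq_sum]
  have hQd : Q.natDegree ≤ D := by
    refine natDegree_sum_le_of_forall_le _ _ fun m hm => ?_
    refine (natDegree_C_mul_le _ _).trans ?_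
    refine (coeff_prod_lin Finset.univ B G m).1.trans ?_
    rw [hsum]
    exact hdeg m hm
  have hQ0 : eval₂ (algebraMap (Rs κ u') E[X]) (C w * X) Q = 0 := by
    rw [hQ, eval₂_finsetSum]
    have h1 : ∀ m ∈ P.support, eval₂ (algebraMap (Rs κ u') E[X]) (C w * X)
        (C (A m) * ∏ j, (C (B j) * X + C (G j)) ^ (m j)) =
        C (algebraMap κ E (MvPolynomial.coeff m P) *
          ∏ j, (algebraMap κ E (b j) * w + v j) ^ (m j)) * X ^ D := by
      intro m hm
      rw [eval₂_mul, eval₂_C, eval₂_finsetProd]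
      have h2 : ∀ j ∈ (Finset.univ : Finset (Fin (s + 1))),
          eval₂ (algebraMap (Rs κ u') E[X]) (C w * X) ((C (B j) * X + C (G j)) ^ (m j)) =
          C ((algebraMap κ E (b j) * w + v j) ^ (m j)) * X ^ (m j) := by
        intro j _
        rw [eval₂_pow, eval₂_add, eval₂_mul, eval₂_C, eval₂_X, eval₂_C]
        change (C (algebraMap κ E (b j)) * (C w * X) + C (v j) * X) ^ (m j) = _
        rw [C_pow, ← mul_pow]
        congr 1
        rw [C_add, C_mul]
        ring
      rw [Finset.prod_congr rfl h2, Finset.prod_mul_distrib, Finset.prod_pow_eq_pow_sum, hsum]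
      change C (algebraMap κ E (MvPolynomial.coeff m P)) * X ^ (D - m.degree) * _ = _
      have h3 : (X : E[X]) ^ D = X ^ (D - m.degree) * X ^ m.degree := by
        rw [← pow_add]
        congr 1
        have := hdeg m hm
        omega
      rw [h3, C_mul, map_prod]
      ring
    rw [Finset.sum_congr rfl h1, ← Finset.sum_mul, ← map_sum]
    have h4 : ∑ m ∈ P.support, algebraMap κ E (MvPolynomial.coeff m P) *
          ∏ j, (algebraMap κ E (b j) * w + v j) ^ (m j) = 0 := by
      rw [← hP, MvPolynomial.aeval_def, MvPolynomial.eval₂_eq']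
    rw [h4, C_0, zero_mul]
  have hQc : Q.coeff D = ⟨_, Rs_alg u' h⟩ := by
    rw [hQ, finsetSum_coeff]
    have h1 : ∀ m ∈ P.support, (C (A m) * ∏ j, (C (B j) * X + C (G j)) ^ (m j)).coeff D =
        if m.degree = D then (⟨_, Rs_alg u' (MvPolynomial.coeff m P * ∏ j, b j ^ m j)⟩ :
          Rs κ u') else 0 := by
      intro m hm
      rw [coeff_C_mul]
      split_ifs with hmd
      · have h2 := (coeff_prod_lin Finset.univ B G m).2
        rw [hsum, hmd] at h2
        rw [h2]
        apply Subtype.ext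
        change C (algebraMap κ E (MvPolynomial.coeff m P)) * X ^ (D - m.degree) *
          ((∏ j, B j ^ m j : Rs κ u') : E[X]) = C (algebraMap κ E _)
        rw [hmd, Nat.sub_self, pow_zero, mul_one, SubmonoidClass.coe_finsetProd]
        have h3 : ∀ j ∈ (Finset.univ : Finset (Fin (s + 1))), ((B j ^ m j : Rs κ u') : E[X]) =
            C (algebraMap κ E (b j ^ m j)) := by
          intro j _
          rw [SubmonoidClass.coe_pow, map_pow, C_pow]
        rw [Finset.prod_congr rfl h3, ← map_prod, ← map_prod, ← map_mul, ← map_mul]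
      · have h2 := (coeff_prod_lin Finset.univ B G m).1
        rw [hsum] at h2
        have h3 := hdeg m hm
        rw [coeff_eq_zero_of_natDegree_lt (lt_of_le_of_lt h2 (lt_of_le_of_ne h3 hmd)), mul_zero]
    rw [Finset.sum_congr rfl h1, ← Finset.sum_filter]
    apply Subtype.ext
    rw [AddSubmonoidClass.coe_finsetSum]
    simp only
    rw [← map_sum, ← map_sum, hh, MvPolynomial.homogeneousComponent_apply, map_sum (MvPolynomial.eval b)]
    congr 2
    apply Finset.sum_congr rfl
    intro m _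
    rw [MvPolynomial.eval_monomial, Finsupp.prod_fintype _ _ (fun i => pow_zero _)]
  refine ⟨C ⟨_, Rs_alg u' h⁻¹⟩ * Q, ?_, ?_⟩
  · refine monic_of_natDegree_le_of_coeff_eq_one D ((natDegree_C_mul_le _ _).trans hQd) ?_
    rw [coeff_C_mul, hQc]
    apply Subtype.ext
    change C (algebraMap κ E h⁻¹) * C (algebraMap κ E h) = 1
    rw [← C_mul, ← map_mul, inv_mul_cancel₀ hb, map_one, C_1]
  · rw [pow_one, eval₂_mul, hQ0, mul_zero]

/-- One step of the normalisation. -/
theorem reduce [CharZero κ] {s : ℕ} (u : Fin (s + 1) → E) (hu : ¬ AlgebraicIndependent κ u) :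
    ∃ b : Fin (s + 1) → ℤ,
      ∀ j, Bd κ (fun i : Fin s => (b 0 : E) * u i.succ - (b i.succ : E) * u 0) 1 (u j) := by
  classical
  have h1 : ∃ P : MvPolynomial (Fin (s + 1)) κ, MvPolynomial.aeval u P = 0 ∧ P ≠ 0 := by
    by_contra hcon
    push Not at hcon
    exact hu ((injective_iff_map_eq_zero _).mpr hcon)
  obtain ⟨P, hP0, hPne⟩ := h1
  have hH : MvPolynomial.homogeneousComponent P.totalDegree P ≠ 0 := by
    obtain ⟨m, hm, hmD⟩ := Finset.exists_mem_eq_sup P.support
      (by rw [Finset.nonempty_iff_ne_empty, ne_eq, MvPolynomial.support_eq_empty]; exact hPne)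
      (fun m => m.sum fun _ e => e)
    intro h0
    have h2 := MvPolynomial.coeff_homogeneousComponent P.totalDegree P m
    have h3 : m.degree = P.totalDegree := hmD.symm
    rw [h0, MvPolynomial.coeff_zero, if_pos h3] at h2
    exact (MvPolynomial.mem_support_iff.mp hm) h2.symm
  have hHX : MvPolynomial.homogeneousComponent P.totalDegree P * MvPolynomial.X 0 ≠ 0 :=
    mul_ne_zero hH (MvPolynomial.X_ne_zero _)
  have h4 : ∃ b : Fin (s + 1) → ℤ, MvPolynomial.eval (fun j => (b j : κ))
      (MvPolynomial.homogeneousComponent P.totalDegree P * MvPolynomial.X 0) ≠ 0 := by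
    by_contra hcon
    push Not at hcon
    apply hHX
    apply MvPolynomial.funext_set (fun _ => Set.range ((↑) : ℤ → κ))
      (fun _ => Set.infinite_range_of_injective Int.cast_injective)
    intro x hx
    choose b hb using fun j => hx j (Set.mem_univ j)
    have h5 : x = fun j => (b j : κ) := (funext hb).symm
    rw [h5, hcon b, map_zero]
  obtain ⟨b, hb⟩ := h4
  rw [map_mul, MvPolynomial.eval_X] at hb
  have hb0 : (b 0 : κ) ≠ 0 := right_ne_zero_of_mul hb
  have hbH := left_ne_zero_of_mul hb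
  refine ⟨b, ?_⟩
  set u' : Fin s → E := fun i : Fin s => (b 0 : E) * u i.succ - (b i.succ : E) * u 0 with hu'
  have hE : (b 0 : E) ≠ 0 := by
    have h6 := (map_ne_zero (algebraMap κ E)).mpr hb0
    rwa [map_intCast] at h6
  set w : E := u 0 / (b 0 : E) with hw
  set v : Fin (s + 1) → E := Fin.cons 0 (fun i => (b 0 : E)⁻¹ * u' i) with hv
  have huv : ∀ j, u j = algebraMap κ E (b j : κ) * w + v j := by
    intro j
    refine Fin.cases ?_ (fun i => ?_) j
    · rw [hv, hw, Fin.cons_zero, map_intCast]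
      field_simp
      ring
    · rw [hv, hw, Fin.cons_succ, map_intCast, hu']
      field_simp
      ring
  have hv2 : ∀ j, (C (v j) * X : E[X]) ∈ Rs κ u' := by
    intro j
    refine Fin.cases ?_ (fun i => ?_) j
    · rw [hv, Fin.cons_zero, C_0, zero_mul]
      exact (Rs κ u').zero_mem
    · rw [hv, Fin.cons_succ]
      have h7 := (Rs κ u').mul_mem (Rs_alg u' ((b 0 : κ)⁻¹)) (Rs_u u' i)
      rw [map_inv₀, map_intCast, ← mul_assoc, ← C_mul] at h7
      exact h7
  have hw1 : Bd κ u' 1 w := Bd_of_rel P (by rw [← funext huv]; exact hP0) hbH hv2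
  intro j
  rw [huv j]
  have h8 : Bd κ u' 1 (v j) := by
    unfold Bd
    rw [pow_one]
    exact int_of_mem (hv2 j)
  refine Bd_add ?_ h8
  have h9 := Bd_smul (b j : κ) hw1
  rwa [Algebra.smul_def] at h9

/-- **Normalisation.** -/
theorem normalise [CharZero κ] {n : ℕ} (x : Fin n → E) :
    ∃ (t : ℕ) (c : Fin t → Fin n → ℤ),
      AlgebraicIndependent κ (fun j => ∑ i, (c j i : E) * x i) ∧
      ∀ i, Bd κ (fun j => ∑ i, (c j i : E) * x i) 1 (x i) := by
  classical
  let T : ℕ → Prop := fun t => ∃ c : Fin t → Fin n → ℤ,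
    ∀ i, Bd κ (fun j => ∑ i, (c j i : E) * x i) 1 (x i)
  have hex : ∃ t, T t := by
    refine ⟨n, fun j i => if i = j then 1 else 0, fun i => ?_⟩
    have e : (fun j => ∑ i, (((if i = j then 1 else 0 : ℤ)) : E) * x i) = x := by
      funext j
      rw [Finset.sum_eq_single j]
      · simp
      · intro i _ hij
        simp [hij]
      · simp
    rw [e]
    exact Bd_self x i
  obtain ⟨t, ⟨c, hc⟩, hmin⟩ : ∃ t, T t ∧ ∀ s < t, ¬ T s :=
    ⟨Nat.find hex, Nat.find_spec hex, fun m hm => Nat.find_min hex hm⟩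
  refine ⟨t, c, ?_, hc⟩
  by_contra hcon
  rcases t with _ | s
  · apply hcon
    rw [algebraicIndependent_empty_type_iff]
    exact (algebraMap κ E).injective
  · obtain ⟨b, hb⟩ := reduce (κ := κ) _ hcon
    apply hmin s (by omega)
    refine ⟨fun j i => b 0 * c j.succ i - b j.succ * c 0 i, fun i => ?_⟩
    have e : (fun j : Fin s => ∑ i, ((b 0 * c j.succ i - b j.succ * c 0 i : ℤ) : E) * x i) =
        fun j : Fin s => (b 0 : E) * (∑ i, (c j.succ i : E) * x i) -
          (b j.succ : E) * (∑ i, (c 0 i : E) * x i) := by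
      funext j
      rw [Finset.mul_sum, Finset.mul_sum, ← Finset.sum_sub_distrib]
      apply Finset.sum_congr rfl
      intro i _
      push_cast
      ring
    rw [e]
    exact Bd_trans hb (hc i)

end Pool.Agent.K9h57.LC
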