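import Pool.Agent.K9h57.LC.Bound

set_option autoImplicit false

/-!
# Division by one of the `u i`
-/

namespace Pool.Agent.K9h57.LC

open Polynomial

section minpoly

variable {A S : Type*} [CommRing A] [CommRing S] [IsDomain A] [IsDomain S] [Algebra A S]
  [IsIntegrallyClosed A] [Module.IsTorsionFree A S]

theorem minpoly_scale {s : A} (hs : s ≠ 0) {z : S} (hz : IsIntegral A z) :
    minpoly A (algebraMap A S s * z) = (minpoly A z).scaleRoots s := by
  set f := minpoly A z with hf
  have hfm : f.Monic := minpoly.monic hz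
  have hb : IsIntegral A (algebraMap A S s * z) := isIntegral_algebraMap.mul hz
  set h := minpoly A (algebraMap A S s * z) with hh
  have hhm : h.Monic := minpoly.monic hb
  have h1 : h ∣ f.scaleRoots s := minpoly.isIntegrallyClosed_dvd hb
    (scaleRoots_aeval_eq_zero (minpoly.aeval A z))
  have hsm : (f.scaleRoots s).Monic := by rwa [monic_scaleRoots_iff]
  set H : A[X] := h.comp (C s * X) with hH
  have hHd : H.natDegree = h.natDegree := by
    rw [hH, natDegree_comp, natDegree_C_mul_X s hs, mul_one]
  have hH0 : H ≠ 0 := by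
    intro h0
    have h2 : H.coeff h.natDegree = 0 := by rw [h0, coeff_zero]
    rw [hH, comp_C_mul_X_coeff, hhm.coeff_natDegree, one_mul] at h2
    exact pow_ne_zero _ hs h2
  have hHz : aeval z H = 0 := by
    rw [hH, aeval_comp]
    have e : aeval z (C s * X : A[X]) = algebraMap A S s * z := by simp
    rw [e]
    exact minpoly.aeval A _
  have h3 : f.degree ≤ H.degree := minpoly.IsIntegrallyClosed.degree_le_of_ne_zero hH0 hHz
  have h4 : f.natDegree ≤ h.natDegree := by
    rw [← hHd]
    exact natDegree_le_natDegree h3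
  exact (eq_of_monic_of_dvd_of_natDegree_le hhm hsm h1 (by rwa [natDegree_scaleRoots])).symm

end minpoly

variable {κ E : Type} [Field κ] [Field E] [Algebra κ E] {j : ℕ}

/-- the coefficients have the degrees of a homogeneous polynomial if the variable has degree `w` -/
def HT (w : ℕ) (q : (MvPolynomial (Fin j) κ)[X]) : Prop :=
  ∀ i, (q.coeff i).totalDegree ≤ w * (q.natDegree - i)

theorem totalDegree_symm_le (p : (MvPolynomial (Fin j) κ)[X]) (N : ℕ)
    (h : ∀ i, p.coeff i ≠ 0 → (p.coeff i).totalDegree + i ≤ N) :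
    ((MvPolynomial.finSuccEquiv κ j).symm p).totalDegree ≤ N := by
  set f := (MvPolynomial.finSuccEquiv κ j).symm p with hf
  have hp : MvPolynomial.finSuccEquiv κ j f = p := by rw [hf, AlgEquiv.apply_symm_apply]
  rw [MvPolynomial.totalDegree, Finset.sup_le_iff]
  intro m hm
  have h1 : m = (Finsupp.tail m).cons (m 0) := (Finsupp.cons_tail m).symm
  have h2 : (Finsupp.tail m) ∈ (p.coeff (m 0)).support := by
    rw [← hp, MvPolynomial.mem_support_coeff_finSuccEquiv, ← h1]
    exact hm
  have h3 : p.coeff (m 0) ≠ 0 := by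
    intro h0
    rw [h0] at h2
    simp at h2
  have h4 := MvPolynomial.le_totalDegree h2
  have h5 := h (m 0) h3
  rw [h1, Finsupp.sum_cons]
  omega

theorem HT_factor {w : ℕ} (hw : 1 ≤ w) {f g : (MvPolynomial (Fin j) κ)[X]} (hf : f.Monic)
    (hg : g.Monic) (h : HT w (f * g)) : HT w f := by
  classical
  -- the total degree of a monic polynomial, the variable being replaced by its `w`-th power
  have low : ∀ q : (MvPolynomial (Fin j) κ)[X], ∀ i, q.coeff i ≠ 0 →
      (q.coeff i).totalDegree + w * i ≤
        ((MvPolynomial.finSuccEquiv κ j).symm (expand _ w q)).totalDegree := by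
    intro q i hi
    have h1 := MvPolynomial.totalDegree_coeff_finSuccEquiv_add_le
      ((MvPolynomial.finSuccEquiv κ j).symm (expand _ w q)) (w * i)
    rw [AlgEquiv.apply_symm_apply] at h1
    rw [coeff_expand_mul' (by omega)] at h1
    exact h1 hi
  have hexp : ∀ q : (MvPolynomial (Fin j) κ)[X], q.Monic →
      (MvPolynomial.finSuccEquiv κ j).symm (expand _ w q) ≠ 0 := by
    intro q hq h0
    rw [EmbeddingLike.map_eq_zero_iff, expand_eq_zero (by omega)] at h0
    exact hq.ne_zero h0
  have up : ((MvPolynomial.finSuccEquiv κ j).symm (expand _ w (f * g))).totalDegree ≤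
      w * (f * g).natDegree := by
    apply totalDegree_symm_le
    intro i hi
    rw [coeff_expand (by omega)] at hi ⊢
    split_ifs at hi ⊢ with hwi
    · obtain ⟨i', rfl⟩ := hwi
      rw [Nat.mul_div_cancel_left _ (by omega)] at hi ⊢
      have h1 : i' ≤ (f * g).natDegree := le_natDegree_of_ne_zero hi
      have h2 := h i'
      have h3 : w * ((f * g).natDegree - i') + w * i' = w * (f * g).natDegree := by
        rw [← Nat.mul_add]
        congr 1
        omega
      omega
    · exact absurd rfl hi
  rw [map_mul, map_mul, MvPolynomial.totalDegree_mul_of_isDomain (hexp f hf) (hexp g hg),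
    hf.natDegree_mul hg, Nat.mul_add] at up
  have hg1 : w * g.natDegree ≤
      ((MvPolynomial.finSuccEquiv κ j).symm (expand _ w g)).totalDegree := by
    have h1 := low g g.natDegree (by rw [hg.coeff_natDegree]; exact one_ne_zero)
    omega
  intro i
  by_cases hi : f.coeff i = 0
  · rw [hi]
    simp
  · have h1 := low f i hi
    have h2 : i ≤ f.natDegree := le_natDegree_of_ne_zero hi
    have h3 : w * (f.natDegree - i) + w * i = w * f.natDegree := by
      rw [← Nat.mul_add]
      congr 1
      omega
    omega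

/-- bounded elements are integral over `κ[u]` -/
theorem Bd_int {σ : Type} {u : σ → E} {m : ℕ} {g : E} (hg : Bd κ u m g) :
    (MvPolynomial.aeval u : MvPolynomial σ κ →ₐ[κ] E).toRingHom.IsIntegralElem g := by
  obtain ⟨q, hq, -, h0⟩ := (Bd_iff u m g).mp hg
  exact ⟨q, hq, h0⟩

/-- **Division.** -/
theorem Bd_div {u : Fin j → E} (hu : AlgebraicIndependent κ u) (i : Fin j) {m : ℕ} {z : E}
    (hb : Bd κ u (m + 1) (u i * z))
    (hz : (MvPolynomial.aeval u : MvPolynomial (Fin j) κ →ₐ[κ] E).toRingHom.IsIntegralElem z) :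
    Bd κ u m z := by
  let _ : Algebra (MvPolynomial (Fin j) κ) E :=
    (MvPolynomial.aeval u : MvPolynomial (Fin j) κ →ₐ[κ] E).toRingHom.toAlgebra
  have hinj : Function.Injective (algebraMap (MvPolynomial (Fin j) κ) E) := hu
  have : FaithfulSMul (MvPolynomial (Fin j) κ) E := (faithfulSMul_iff_algebraMap_injective _ _).mpr hinj
  have : Module.IsTorsionFree (MvPolynomial (Fin j) κ) E := inferInstance
  obtain ⟨Q, hQ, hQd, hQ0⟩ := (Bd_iff u (m + 1) (u i * z)).mp hb
  have hz' : IsIntegral (MvPolynomial (Fin j) κ) z := hz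
  have hX : algebraMap (MvPolynomial (Fin j) κ) E (MvPolynomial.X i) = u i :=
    MvPolynomial.aeval_X u i
  have hms := minpoly_scale (A := MvPolynomial (Fin j) κ) (S := E)
    (MvPolynomial.X_ne_zero i) hz'
  rw [hX] at hms
  set f := minpoly (MvPolynomial (Fin j) κ) z with hf
  have hfm : f.Monic := minpoly.monic hz'
  have hsm : (f.scaleRoots (MvPolynomial.X i)).Monic := by rwa [monic_scaleRoots_iff]
  have hb' : IsIntegral (MvPolynomial (Fin j) κ) (u i * z) := by
    rw [← hX]
    exact isIntegral_algebraMap.mul hz'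
  have hdvd : f.scaleRoots (MvPolynomial.X i) ∣ Q := by
    rw [← hms]
    exact minpoly.isIntegrallyClosed_dvd hb' hQ0
  obtain ⟨g, hg⟩ := hdvd
  have hgm : g.Monic := hsm.of_mul_monic_left (by rw [← hg]; exact hQ)
  have hHT : HT (m + 1) (f.scaleRoots (MvPolynomial.X i)) :=
    HT_factor (by omega) hsm hgm (by rw [← hg]; exact hQd)
  rw [Bd_iff]
  refine ⟨f, hfm, fun l => ?_, minpoly.aeval _ z⟩
  by_cases hl : f.coeff l = 0
  · rw [hl]
    simp
  · have h1 := hHT l
    have h2 : l ≤ f.natDegree := le_natDegree_of_ne_zero hl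
    rw [natDegree_scaleRoots, coeff_scaleRoots,
      MvPolynomial.totalDegree_mul_of_isDomain hl (pow_ne_zero _ (MvPolynomial.X_ne_zero i)),
      MvPolynomial.totalDegree_X_pow, Nat.add_mul, one_mul] at h1
    omega

end Pool.Agent.K9h57.LC
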