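import Pool.Agent.K9h57.LC.Bertini
import Pool.Agent.K9h57.LC.Noether

set_option autoImplicit false

/-!
# The sharp bounds for the growth of the spaces of bounded elements
-/

namespace Pool.Agent.K9h57.LC

open Module Polynomial IntermediateField

section

variable {κ E : Type} [Field κ] [Field E] [Algebra κ E]

/-- A good member of the pencil. -/
theorem pencil [CharZero κ] {j : ℕ} (K : IntermediateField κ E)
    (hcl : ∀ g ∈ K, IsAlgebraic κ g → ∃ a : κ, algebraMap κ E a = g)
    (u : Fin (j + 2) → E) (hu : AlgebraicIndependent κ u) (huK : ∀ i, u i ∈ K) (d : ℕ)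
    (hd : relrank (IntermediateField.adjoin κ (Set.range u)) K ≤ d) :
    ∃ u' : Fin (j + 2) → E, AlgebraicIndependent κ u' ∧ (∀ i, u' i ∈ K) ∧
      relrank (IntermediateField.adjoin κ (Set.range u')) K ≤ d ∧
      (∀ m, Ms K u' m = Ms K u m) ∧
      ∀ g ∈ K, IsAlgebraic (IntermediateField.adjoin κ {u' 0}) g →
        ∃ a : IntermediateField.adjoin κ {u' 0},
          algebraMap (IntermediateField.adjoin κ {u' 0}) E a = g := by
  classical
  obtain ⟨c, hc⟩ := bertini K hcl u hu huK (lt_of_le_of_lt hd Cardinal.natCast_lt_aleph0)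
  have h10 : (1 : Fin (j + 2)) ≠ 0 := by simp
  obtain ⟨u', hu'⟩ : ∃ u' : Fin (j + 2) → E, u' = Function.update u 0 (u 0 + c * u 1) := ⟨_, rfl⟩
  have h0 : u' 0 = u 0 + c * u 1 := by rw [hu', Function.update_self]
  have hi : ∀ i, i ≠ 0 → u' i = u i := fun i hi => by rw [hu', Function.update_of_ne hi]
  have hu'K : ∀ i, u' i ∈ K := by
    intro i
    by_cases h : i = 0
    · rw [h, h0]
      exact K.add_mem (huK 0) (K.mul_mem (intCast_mem K c) (huK 1))
    · rw [hi i h]
      exact huK i
  have hcs : ∀ z : E, (c : E) * z = (c : κ) • z := fun z => by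
    rw [Algebra.smul_def, map_intCast]
  have hB1 : ∀ i, Bd κ u 1 (u' i) := by
    intro i
    by_cases h : i = 0
    · rw [h, h0, hcs]
      exact Bd_add (Bd_self u 0) (Bd_smul _ (Bd_self u 1))
    · rw [hi i h]
      exact Bd_self u i
  have h00 : u 0 = u' 0 + ((-c : ℤ) : E) * u' 1 := by
    rw [h0, hi 1 h10]
    push_cast
    ring
  have hB2 : ∀ i, Bd κ u' 1 (u i) := by
    intro i
    by_cases h : i = 0
    · have h2 : ((-c : ℤ) : E) * u' 1 = ((-c : ℤ) : κ) • u' 1 := by
        rw [Algebra.smul_def, map_intCast]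
      rw [h, h00, h2]
      exact Bd_add (Bd_self u' 0) (Bd_smul _ (Bd_self u' 1))
    · rw [← hi i h]
      exact Bd_self u' i
  have hadj : IntermediateField.adjoin κ (Set.range u') = IntermediateField.adjoin κ (Set.range u) := by
    apply le_antisymm
    · rw [IntermediateField.adjoin_le_iff]
      rintro _ ⟨i, rfl⟩
      by_cases h : i = 0
      · rw [h, h0]
        exact add_mem (subset_adjoin _ _ ⟨0, rfl⟩)
          (mul_mem (intCast_mem _ _) (subset_adjoin _ _ ⟨1, rfl⟩))
      · rw [hi i h]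
        exact subset_adjoin _ _ ⟨i, rfl⟩
    · rw [IntermediateField.adjoin_le_iff]
      rintro _ ⟨i, rfl⟩
      by_cases h : i = 0
      · rw [h, h00]
        exact add_mem (subset_adjoin _ _ ⟨0, rfl⟩)
          (mul_mem (intCast_mem _ _) (subset_adjoin _ _ ⟨1, rfl⟩))
      · rw [← hi i h]
        exact subset_adjoin _ _ ⟨i, rfl⟩
  refine ⟨u', ?_, hu'K, by rwa [hadj], fun m => ?_, fun g hg halg => ?_⟩
  · rw [hu']
    exact indep_update hu c
  · apply le_antisymm
    · intro g hg
      exact ⟨hg.1, Bd_trans hB1 hg.2⟩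
    · intro g hg
      exact ⟨hg.1, Bd_trans hB2 hg.2⟩
  · rw [h0] at halg
    have h3 := hc g hg halg
    rw [← h0] at h3
    exact ⟨⟨g, h3⟩, rfl⟩

/-- the space without poles consists of constants -/
theorem base' {j : ℕ} (K : IntermediateField κ E)
    (hcl : ∀ g ∈ K, IsAlgebraic κ g → ∃ a : κ, algebraMap κ E a = g) (u : Fin j → E) :
    finrank κ (Ms K u 0) ≤ 1 := by
  have hle : Ms K u 0 ≤ Submodule.span κ {(1 : E)} := by
    rintro g ⟨hgK, hg⟩
    obtain ⟨a, ha⟩ := hcl g hgK (Bd_zero_alg hg)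
    rw [Submodule.mem_span_singleton]
    exact ⟨a, by rw [Algebra.smul_def, mul_one, ha]⟩
  have : FiniteDimensional κ (Submodule.span κ {(1 : E)}) := inferInstance
  refine (Submodule.finrank_mono hle).trans ?_
  have h := finrank_span_le_card (R := κ) ({(1 : E)} : Set E)
  simpa using h

end

/-- the bound -/
def BoundAt (E : Type) [Field E] (j : ℕ) : Prop :=
  ∀ (κ : Type) [Field κ] [CharZero κ] [Algebra κ E] (u : Fin (j + 1) → E)
    (_ : AlgebraicIndependent κ u) (K : IntermediateField κ E) (_ : ∀ i, u i ∈ K)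
    (_ : ∀ g ∈ K, IsAlgebraic κ g → ∃ a : κ, algebraMap κ E a = g) (d : ℕ)
    (_ : relrank (IntermediateField.adjoin κ (Set.range u)) K ≤ d) (m : ℕ),
    finrank κ (Ms K u m) ≤ (m + j).choose (j + 1) * d + (m + j).choose j

variable {E : Type} [Field E]

theorem diff_of_bound {j : ℕ} (hb : BoundAt E j) (κ : Type) [Field κ] [CharZero κ] [Algebra κ E]
    (u : Fin (j + 2) → E) (hu : AlgebraicIndependent κ u) (K : IntermediateField κ E)
    (hK : ∀ i, u i ∈ K) (hcl : ∀ g ∈ K, IsAlgebraic κ g → ∃ a : κ, algebraMap κ E a = g) (d : ℕ)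
    (hd : relrank (IntermediateField.adjoin κ (Set.range u)) K ≤ d) (m : ℕ) :
    finrank κ (Ms K u (m + 1)) ≤ finrank κ (Ms K u m) +
      ((m + 1 + j).choose (j + 1) * d + (m + 1 + j).choose j) := by
  obtain ⟨u', hu', hK', hd', hMs, hcl'⟩ := pencil K hcl u hu hK d hd
  rw [← hMs, ← hMs]
  clear hMs hd hK hu
  have hu0 : u' 0 ≠ 0 := hu'.ne_zero 0
  have hFK : IntermediateField.adjoin κ {u' 0} ≤ K := by
    rw [IntermediateField.adjoin_le_iff]
    rintro _ rfl
    exact hK' 0
  have : CharZero (IntermediateField.adjoin κ {u' 0}) :=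
    charZero_of_injective_algebraMap (algebraMap κ (IntermediateField.adjoin κ {u' 0})).injective
  have hrel : relrank (IntermediateField.adjoin (IntermediateField.adjoin κ {u' 0})
      (Set.range fun i : Fin (j + 1) => u' i.succ)) (extendScalars hFK) ≤ d := by
    refine le_trans (le_of_eq ?_) hd'
    unfold IntermediateField.relrank
    rw [adjoin_tail]
    congr 1
  have htail := hb (IntermediateField.adjoin κ {u' 0}) (fun i : Fin (j + 1) => u' i.succ)
    (indep_tail hu') (extendScalars hFK) (fun i => hK' i.succ) hcl' d hrel (m + 1)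
  obtain ⟨hf, -⟩ := bound (j + 2) κ u' hu' K hK' d hd' m
  obtain ⟨hf', -⟩ := bound (j + 1) (IntermediateField.adjoin κ {u' 0})
    (fun i : Fin (j + 1) => u' i.succ) (indep_tail hu') (extendScalars hFK)
    (fun i => hK' i.succ) d hrel (m + 1)
  have hm : (Ms K u' m).map (LinearMap.mulLeft κ (u' 0)) ≤ Ms K u' (m + 1) := by
    rintro _ ⟨g, hg, rfl⟩
    refine ⟨K.mul_mem (hK' 0) hg.1, ?_⟩
    have h1 := Bd_mul (Bd_self (κ := κ) u' 0) hg.2
    rwa [Nat.add_comm 1 m] at h1
  have h1 := stepT hu0 K hK' (m + 1) ((Ms K u' m).map (LinearMap.mulLeft κ (u' 0))) hm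
    inferInstance (by
      intro z hz hint hb
      exact ⟨z, ⟨hz, Bd_div hu' 0 hb hint⟩, rfl⟩) _ hFK ⟨hf', htail⟩
  have h2 := Submodule.finrank_map_le (LinearMap.mulLeft κ (u' 0)) (Ms K u' m)
  have h3 := h1.2
  omega

theorem bound' (j : ℕ) : BoundAt E j := by
  induction j with
  | zero =>
    intro κ _ _ _ u hu K hK hcl d hd m
    induction m with
    | zero =>
      have h1 := base' K hcl u
      simpa using h1
    | succ m ih =>
      have h1 := diff 0 κ u hu K hK d hd m
      simp only [add_zero, zero_add, Nat.choose_one_right, Nat.choose_zero_right, one_mul] at ih h1 ⊢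
      rw [Nat.add_mul, one_mul]
      omega
  | succ j ihj =>
    intro κ _ _ _ u hu K hK hcl d hd m
    induction m with
    | zero =>
      have h1 := base' K hcl u
      have h2 : (0 + (j + 1)).choose (j + 1 + 1) = 0 := Nat.choose_eq_zero_of_lt (by omega)
      have h3 : (0 + (j + 1)).choose (j + 1) = 1 := by rw [zero_add, Nat.choose_self]
      rw [h2, h3]
      omega
    | succ m ih =>
      have h1 := diff_of_bound ihj κ u hu K hK hcl d hd m
      have e1 : m + 1 + (j + 1) = (m + 1 + j) + 1 := by omega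
      have e2 : m + (j + 1) = m + 1 + j := by omega
      rw [e1, Nat.choose_succ_succ' (m + 1 + j) (j + 1), Nat.choose_succ_succ' (m + 1 + j) j,
        Nat.add_mul]
      rw [e2] at ih
      omega

/-- **The sharp growth estimate.** -/
theorem diff' (j : ℕ) (κ : Type) [Field κ] [CharZero κ] [Algebra κ E] (u : Fin (j + 1) → E)
    (hu : AlgebraicIndependent κ u) (K : IntermediateField κ E) (hK : ∀ i, u i ∈ K)
    (hcl : ∀ g ∈ K, IsAlgebraic κ g → ∃ a : κ, algebraMap κ E a = g) (d : ℕ)
    (hd : relrank (IntermediateField.adjoin κ (Set.range u)) K ≤ d) :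
    finrank κ (Ms K u 2) ≤ finrank κ (Ms K u 1) + ((j + 1) * d + (j + 1).choose 2) := by
  rcases j with _ | j
  · have h1 := diff 0 κ u hu K hK d hd 1
    simpa using h1
  · have h1 := diff_of_bound (bound' j) κ u hu K hK hcl d hd 1
    have e1 : (1 + 1 + j).choose (j + 1) = j + 1 + 1 := by
      rw [show 1 + 1 + j = j + 1 + 1 from by omega, Nat.choose_succ_self_right]
    have e3 : 1 + 1 + j = j + 1 + 1 := by omega
    have e2 : (1 + 1 + j).choose j = (j + 1 + 1).choose 2 := by
      rw [e3]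
      exact Nat.choose_symm_of_eq_add (a := j) (b := 2) (by omega)
    rw [e1, e2] at h1
    exact h1

end Pool.Agent.K9h57.LC
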