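import Pool.Agent.K9h57.LC.Weight

set_option autoImplicit false

/-!
# Allowing the poles of `x` once more raises the dimension by at most `[K : k(x)]`
-/

namespace Pool.Agent.K9h57.LC

open Module Polynomial IntermediateField

variable {k E : Type*} [Field k] [Field E] [Algebra k E]

theorem aeval_rev (x y : E) (hxy : x * y = 1) (p : k[X]) (m : ℕ) (hp : p.natDegree ≤ m) :
    aeval x p * y ^ m = algebraMap k E (p.coeff m) +
      y * ∑ j ∈ Finset.range m, algebraMap k E (p.coeff j) * y ^ (m - 1 - j) := by
  rw [aeval_eq_sum_range' (Nat.lt_succ_of_le hp), Finset.sum_range_succ, add_mul, add_comm,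
    Finset.sum_mul, Finset.mul_sum]
  have hpow : ∀ j : ℕ, x ^ j * y ^ j = 1 := fun j => by rw [← mul_pow, hxy, one_pow]
  congr 1
  · rw [Algebra.smul_def, mul_assoc, hpow, mul_one]
  · apply Finset.sum_congr rfl
    intro j hj
    have hj' := Finset.mem_range.mp hj
    have e : y ^ m = y ^ j * (y * y ^ (m - 1 - j)) := by
      rw [← pow_succ', ← pow_add]
      congr 1
      omega
    rw [Algebra.smul_def, e]
    calc algebraMap k E (p.coeff j) * x ^ j * (y ^ j * (y * y ^ (m - 1 - j)))
        = (x ^ j * y ^ j) * (algebraMap k E (p.coeff j) * (y * y ^ (m - 1 - j))) := by ring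
      _ = _ := by rw [hpow]; ring

/-- elements of `Mw K (w * tw x)` which are independent modulo `Mw K w` are independent over
`k[x]` -/
theorem indep (K : IntermediateField k E) (w : ValuationSubring E → E) (x : E) {ι : Type*}
    [Fintype ι] (b : ι → E) (hb : ∀ i, b i ∈ Mw K (fun O => w O * tw x O))
    (hind : ∀ c : ι → k, ∑ i, c i • b i ∈ Mw K w → ∀ i, c i = 0) (p : ι → k[X])
    (h0 : ∑ i, aeval x (p i) * b i = 0) : ∀ i, p i = 0 := by
  classical
  by_contra hne
  push Not at hne
  obtain ⟨i₀, hi₀⟩ := hne
  set m : ℕ := Finset.univ.sup (fun i => (p i).natDegree) with hm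
  have hdeg : ∀ i, (p i).natDegree ≤ m := fun i =>
    Finset.le_sup (f := fun i => (p i).natDegree) (Finset.mem_univ i)
  -- some coefficient of degree `m` is not zero
  have hex : ∃ i, (p i).coeff m ≠ 0 := by
    obtain ⟨i₁, -, hi₁⟩ := Finset.exists_mem_eq_sup Finset.univ ⟨i₀, Finset.mem_univ i₀⟩
      (fun i => (p i).natDegree)
    by_cases hm0 : m = 0
    · refine ⟨i₀, ?_⟩
      have h1 : (p i₀).natDegree = m := le_antisymm (hdeg i₀) (by omega)
      rw [← h1]
      exact leadingCoeff_ne_zero.mpr hi₀
    · refine ⟨i₁, ?_⟩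
      have h1 : (p i₁).natDegree = m := by rw [hm, hi₁]
      rw [← h1]
      refine leadingCoeff_ne_zero.mpr fun h => hm0 ?_
      rw [← h1, h, natDegree_zero]
  obtain ⟨i₁, hi₁⟩ := hex
  refine hi₁ (hind (fun i => (p i).coeff m) ?_ i₁)
  refine ⟨sum_mem fun i _ => K.smul_mem (hb i).1, fun O hO => ?_⟩
  · by_cases hx : x ∈ O
    · rw [Finset.sum_mul]
      refine O.toSubring.sum_mem fun i _ => ?_
      have h1 := (hb i).2 O hO
      have h2 : tw x O = 1 := by unfold tw; rw [if_pos hx]
      simp only [h2, mul_one] at h1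
      change ((p i).coeff m • b i) * w O ∈ O
      rw [Algebra.smul_def, mul_assoc]
      exact O.mul_mem _ _ (hO _) h1
    · have hx0 : x ≠ 0 := fun h => hx (by rw [h]; exact O.zero_mem)
      have hxy : x * x⁻¹ = 1 := mul_inv_cancel₀ hx0
      have hy : x⁻¹ ∈ O := (O.mem_or_inv_mem x).resolve_left hx
      have h2 : tw x O = x⁻¹ := by unfold tw; rw [if_neg hx]
      set y : E := x⁻¹ with hydef
      -- the relation, divided by `x ^ m`
      have h3 : ∑ i, (algebraMap k E ((p i).coeff m) +
          y * ∑ j ∈ Finset.range m, algebraMap k E ((p i).coeff j) * y ^ (m - 1 - j)) * b i = 0 := by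
        have h4 : (∑ i, aeval x (p i) * b i) * y ^ m = 0 := by rw [h0, zero_mul]
        rw [Finset.sum_mul] at h4
        rw [← h4]
        apply Finset.sum_congr rfl
        intro i _
        rw [← aeval_rev x y hxy (p i) m (hdeg i)]
        ring
      have h5 : (∑ i, (p i).coeff m • b i) * w O = -∑ i,
          (∑ j ∈ Finset.range m, algebraMap k E ((p i).coeff j) * y ^ (m - 1 - j)) *
            (b i * (w O * y)) := by
        have h6 : (∑ i, (p i).coeff m • b i) + ∑ i,
            (∑ j ∈ Finset.range m, algebraMap k E ((p i).coeff j) * y ^ (m - 1 - j)) *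
              (b i * y) = 0 := by
          rw [← h3, ← Finset.sum_add_distrib]
          apply Finset.sum_congr rfl
          intro i _
          rw [Algebra.smul_def]
          ring
        have h7 : (∑ i, (p i).coeff m • b i) = - ∑ i,
            (∑ j ∈ Finset.range m, algebraMap k E ((p i).coeff j) * y ^ (m - 1 - j)) *
              (b i * y) := eq_neg_of_add_eq_zero_left h6
        rw [h7, neg_mul, Finset.sum_mul]
        congr 1
        apply Finset.sum_congr rfl
        intro i _
        ring
      rw [h5]
      refine O.neg_mem _ (O.toSubring.sum_mem fun i _ => ?_)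
      refine O.mul_mem _ _ (O.toSubring.sum_mem fun j _ => ?_) ?_
      · exact O.mul_mem _ _ (hO _) (O.toSubring.pow_mem hy _)
      · have h1 : b i * (w O * tw x O) ∈ O := (hb i).2 O hO
        rwa [h2] at h1

open scoped IntermediateField.algebraAdjoinAdjoin in
/-- the same, over the field `k(x)` -/
theorem indep_field (K : IntermediateField k E) (w : ValuationSubring E → E) (x : E) {ι : Type*}
    [Fintype ι] (b : ι → E) (hb : ∀ i, b i ∈ Mw K (fun O => w O * tw x O))
    (hind : ∀ c : ι → k, ∑ i, c i • b i ∈ Mw K w → ∀ i, c i = 0) :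
    LinearIndependent (IntermediateField.adjoin k {x}) b := by
  classical
  rw [← LinearIndependent.iff_fractionRing (Algebra.adjoin k {x}) (IntermediateField.adjoin k {x})]
  rw [Fintype.linearIndependent_iff]
  intro g hg
  have hp : ∀ i, ∃ p : k[X], aeval x p = (g i : E) := by
    intro i
    have h1 : (g i : E) ∈ (aeval (R := k) x).range := by
      rw [← Algebra.adjoin_singleton_eq_range_aeval]
      exact (g i).2
    obtain ⟨p, hp⟩ := h1
    exact ⟨p, hp⟩
  choose p hp using hp
  have h2 := indep K w x b hb hind p (by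
    rw [← hg]
    apply Finset.sum_congr rfl
    intro i _
    rw [hp i]
    rfl)
  intro i
  have h3 := hp i
  rw [h2 i, map_zero] at h3
  exact Subtype.ext h3.symm

end Pool.Agent.K9h57.LC
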