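import Pool.Agent.TH379.HF.Sparse

set_option autoImplicit false

/-!
# Linear forms in logarithms in spaces spanned by the values of a character
-/

namespace Pool.Agent.K9h57.LC

open Module Finset
open scoped Pointwise
open Pool.Agent.H301R2.SSE (QB mem_QB Lt Lt_one Lt_log)

/-- If `c U V ⊆ Z` then `Z` is larger than `U` by a quarter of the square of the dimension of `V`. -/
theorem growth' {n : ℕ} (hn : 0 < n) (l : Fin n → ℂ) (hl : ∀ i, l i ∈ Lt)
    (hli : LinearIndependent QB l) (U Z : Submodule QB ℂ) [FiniteDimensional QB U]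
    [FiniteDimensional QB Z] (c : ℂ) (hc : c ≠ 0) (hU : n ≤ 2 * finrank QB U + 1)
    (hZ : ∀ u ∈ U, ∀ i, u * (c * l i) ∈ Z) : finrank QB U + n ^ 2 / 4 ≤ finrank QB Z := by
  set V : Submodule QB ℂ := Submodule.span QB (Set.range l) with hV
  have hfV : FiniteDimensional QB V := FiniteDimensional.span_of_finite QB (Set.finite_range l)
  have hdV : finrank QB V = n := by
    rw [hV, finrank_span_eq_card hli, Fintype.card_fin]
  have hVL : V ≤ Lt := by
    rw [hV, Submodule.span_le]
    rintro _ ⟨i, rfl⟩
    exact hl i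
  have hV0 : V ≠ ⊥ := by
    intro h
    rw [h, finrank_bot] at hdV
    omega
  have h1 := Pool.Agent.TH379.HF.expand U V hVL hV0 (by omega)
  have hUV : U * V ≤ Z.map (LinearMap.mulLeft QB c⁻¹) := by
    rw [Submodule.mul_le]
    intro u hu v hv
    rw [hV] at hv
    induction hv using Submodule.span_induction with
    | mem x hx =>
      obtain ⟨i, rfl⟩ := hx
      refine ⟨u * (c * l i), hZ u hu i, ?_⟩
      change c⁻¹ * (u * (c * l i)) = u * l i
      field_simp
    | zero => rw [mul_zero]; exact Submodule.zero_mem _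
    | add x y _ _ hx hy => rw [mul_add]; exact Submodule.add_mem _ hx hy
    | smul a x _ hx =>
      rw [mul_smul_comm]
      exact Submodule.smul_mem _ _ hx
  rw [hdV] at h1
  exact h1.trans ((Submodule.finrank_mono hUV).trans (Submodule.finrank_map_le _ _))

/-- the space spanned by the values of `χ` on `A` -/
noncomputable def Sp {G : Type} (χ : G → ℂ) (A : Finset G) : Submodule QB ℂ :=
  Submodule.span QB (χ '' (A : Set G))

instance {G : Type} (χ : G → ℂ) (A : Finset G) : FiniteDimensional QB (Sp χ A) :=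
  FiniteDimensional.span_of_finite QB (A.finite_toSet.image χ)

theorem finrank_Sp_le {G : Type} (χ : G → ℂ) (A : Finset G) : finrank QB (Sp χ A) ≤ A.card := by
  classical
  have h1 : Sp χ A = Submodule.span QB ((A.image χ : Finset ℂ) : Set ℂ) := by
    rw [Sp, coe_image]
  rw [h1]
  exact (finrank_span_finset_le_card _).trans card_image_le

theorem Sp_mono {G : Type} (χ : G → ℂ) {A B : Finset G} (h : A ⊆ B) : Sp χ A ≤ Sp χ B :=
  Submodule.span_mono (Set.image_mono (by exact_mod_cast h))

section

variable {G : Type} [AddCommMonoid G] [IsCancelAdd G] [DecidableEq G] (χ : G → ℂ)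
  (hχ : ∀ a b, χ (a + b) = χ a * χ b)

include hχ

omit [IsCancelAdd G] in
theorem Sp_mul (A B : Finset G) : Sp χ A * Sp χ B ≤ Sp χ (A + B) := by
  rw [Sp, Sp, Submodule.span_mul_span, Submodule.span_le]
  rintro _ ⟨_, ⟨a, ha, rfl⟩, _, ⟨b, hb, rfl⟩, rfl⟩
  refine Submodule.subset_span ⟨a + b, ?_, hχ a b⟩
  exact_mod_cast add_mem_add (by exact_mod_cast ha) (by exact_mod_cast hb)

theorem finrank_Sp_add (A B : Finset G) (hA : A.Nonempty) :
    finrank QB (Sp χ (A + B)) + B.card ≤ finrank QB (Sp χ B) + (A + B).card := by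
  obtain ⟨a, ha⟩ := hA
  set R : Finset G := (A + B) \ (B.image (a + ·)) with hR
  have hsub : B.image (a + ·) ⊆ A + B := by
    intro x hx
    obtain ⟨b, hb, rfl⟩ := mem_image.mp hx
    exact add_mem_add ha hb
  have hcard : R.card + B.card = (A + B).card := by
    have h1 := card_sdiff_add_card_eq_card hsub
    rwa [card_image_of_injective _ (add_right_injective a)] at h1
  have hle : Sp χ (A + B) ≤ (Sp χ B).map (LinearMap.mulLeft QB (χ a)) ⊔ Sp χ R := by
    rw [Sp, Submodule.span_le]
    rintro _ ⟨x, hx, rfl⟩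
    by_cases hxa : x ∈ B.image (a + ·)
    · obtain ⟨b, hb, rfl⟩ := mem_image.mp hxa
      refine Submodule.mem_sup_left ⟨χ b, Submodule.subset_span ⟨b, by exact_mod_cast hb, rfl⟩, ?_⟩
      change χ a * χ b = χ (a + b)
      rw [hχ]
    · refine Submodule.mem_sup_right (Submodule.subset_span ⟨x, ?_, rfl⟩)
      have h2 : x ∈ A + B := by exact_mod_cast hx
      exact_mod_cast mem_sdiff.mpr ⟨h2, hxa⟩
  have h1 := (Submodule.finrank_mono hle).trans (Submodule.finrank_add_le_finrank_add_finrank _ _)
  have h2 := Submodule.finrank_map_le (LinearMap.mulLeft QB (χ a)) (Sp χ B)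
  have h3 := finrank_Sp_le χ R
  omega

/-- **Sumsets.** -/
theorem sumset {n : ℕ} (l : Fin n → ℂ) (hl : ∀ i, l i ∈ Lt) (hli : LinearIndependent QB l)
    (c : ℂ) (hc : c ≠ 0) (A B : Finset G) (hA : A.Nonempty) (h : ∀ i, c * l i ∈ Sp χ A)
    (hB : n ≤ 2 * finrank QB (Sp χ B) + 1) : n ^ 2 / 4 + B.card ≤ (A + B).card := by
  rcases Nat.eq_zero_or_pos n with h0 | hn
  · rw [h0]
    obtain ⟨a, ha⟩ := hA
    have h1 : (B.image (a + ·)).card ≤ (A + B).card := card_le_card (by
      intro x hx
      obtain ⟨b, hb, rfl⟩ := mem_image.mp hx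
      exact add_mem_add ha hb)
    rw [card_image_of_injective _ (add_right_injective a)] at h1
    simpa using h1
  · have h1 := growth' hn l hl hli (Sp χ B) (Sp χ (A + B)) c hc hB (by
      intro u hu i
      rw [mul_comm]
      exact Sp_mul χ hχ A B (Submodule.mul_mem_mul (h i) hu))
    have h2 := finrank_Sp_add χ hχ A B hA
    omega

/-- **Doubling.** -/
theorem doubling {n : ℕ} (l : Fin n → ℂ) (hl : ∀ i, l i ∈ Lt) (hli : LinearIndependent QB l)
    (c : ℂ) (hc : c ≠ 0) (A : Finset G) (hA : A.Nonempty) (h : ∀ i, c * l i ∈ Sp χ A) :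
    n ^ 2 / 4 + A.card ≤ (A + A).card := by
  refine sumset χ hχ l hl hli c hc A A hA h ?_
  have h1 : Submodule.span QB (Set.range l) ≤ (Sp χ A).map (LinearMap.mulLeft QB c⁻¹) := by
    rw [Submodule.span_le]
    rintro _ ⟨i, rfl⟩
    refine ⟨c * l i, h i, ?_⟩
    change c⁻¹ * (c * l i) = l i
    field_simp
  have h2 := (Submodule.finrank_mono h1).trans (Submodule.finrank_map_le _ _)
  rw [finrank_span_eq_card hli, Fintype.card_fin] at h2
  omega

end

section poly

variable {t : ℕ}

/-- the monomials -/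
noncomputable def mon (θ : Fin t → ℂ) (a : Fin t →₀ ℕ) : ℂ := a.prod fun i e => θ i ^ e

theorem mon_add (θ : Fin t → ℂ) (a b : Fin t →₀ ℕ) : mon θ (a + b) = mon θ a * mon θ b := by
  unfold mon
  exact Finsupp.prod_add_index' (fun _ => pow_zero _) (fun _ _ _ => pow_add _ _ _)

theorem aeval_eq_mon (θ : Fin t → ℂ) (P : MvPolynomial (Fin t) QB) :
    MvPolynomial.aeval θ P = ∑ a ∈ P.support, P.coeff a • mon θ a := by
  rw [MvPolynomial.aeval_def, MvPolynomial.eval₂_eq]
  apply Finset.sum_congr rfl
  intro a _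
  rw [Algebra.smul_def]
  rfl

theorem aeval_mem_Sp (θ : Fin t → ℂ) (A : Finset (Fin t →₀ ℕ)) (P : MvPolynomial (Fin t) QB)
    (hP : P.support ⊆ A) : MvPolynomial.aeval θ P ∈ Sp (mon θ) A := by
  rw [aeval_eq_mon]
  refine Submodule.sum_mem _ fun a ha => Submodule.smul_mem _ _ (Submodule.subset_span ⟨a, ?_, rfl⟩)
  exact_mod_cast hP ha

theorem card_le_Sp_mon (θ : Fin t → ℂ) (B : Finset (Fin t →₀ ℕ))
    (hB : ∀ Q : MvPolynomial (Fin t) QB, Q.support ⊆ B → MvPolynomial.aeval θ Q = 0 → Q = 0) :
    B.card ≤ finrank QB (Sp (mon θ) B) := by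
  classical
  have hli : LinearIndependent QB (fun b : B => mon θ b) := by
    rw [Fintype.linearIndependent_iff]
    intro g hg
    set Q : MvPolynomial (Fin t) QB := ∑ b : B, MvPolynomial.monomial (b : Fin t →₀ ℕ) (g b) with hQ
    have hcoeff : ∀ a : Fin t →₀ ℕ, Q.coeff a = ∑ b : B, if (b : Fin t →₀ ℕ) = a then g b else 0 := by
      intro a
      rw [hQ, MvPolynomial.coeff_sum]
      simp only [MvPolynomial.coeff_monomial]
    have hsupp : Q.support ⊆ B := by
      intro a ha
      by_contra hab
      rw [MvPolynomial.mem_support_iff, hcoeff] at ha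
      apply ha
      apply Finset.sum_eq_zero
      intro b _
      rw [if_neg]
      rintro rfl
      exact hab b.2
    have hQ0 : MvPolynomial.aeval θ Q = 0 := by
      rw [hQ, map_sum, ← hg]
      apply Finset.sum_congr rfl
      intro b _
      rw [MvPolynomial.aeval_monomial, Algebra.smul_def]
      rfl
    have hQz := hB Q hsupp hQ0
    intro i
    have h1 := hcoeff i
    rw [hQz, MvPolynomial.coeff_zero, Finset.sum_eq_single i] at h1
    · rw [if_pos rfl] at h1
      exact h1.symm
    · intro b _ hbi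
      rw [if_neg]
      intro h
      exact hbi (Subtype.ext h)
    · intro h
      exact absurd (Finset.mem_univ i) h
  have h1 := finrank_span_eq_card hli
  rw [Fintype.card_coe] at h1
  have h2 : Set.range (fun b : B => mon θ b) = mon θ '' (B : Set (Fin t →₀ ℕ)) := by
    ext x
    constructor
    · rintro ⟨b, rfl⟩
      exact ⟨b, b.2, rfl⟩
    · rintro ⟨b, hb, rfl⟩
      exact ⟨⟨b, hb⟩, rfl⟩
  rw [h2] at h1
  exact h1.ge

/-- the box -/
noncomputable def box (t : ℕ) (s : Fin t → Finset ℕ) : Finset (Fin t →₀ ℕ) :=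
  (Fintype.piFinset s).map Finsupp.equivFunOnFinite.symm.toEmbedding

theorem mem_box {s : Fin t → Finset ℕ} {a : Fin t →₀ ℕ} : a ∈ box t s ↔ ∀ i, a i ∈ s i := by
  unfold box
  rw [Finset.mem_map]
  constructor
  · rintro ⟨f, hf, rfl⟩ i
    exact Fintype.mem_piFinset.mp hf i
  · intro h
    exact ⟨a, Fintype.mem_piFinset.mpr h, Finsupp.equivFunOnFinite.symm_apply_apply a⟩

theorem card_box (s : Fin t → Finset ℕ) : (box t s).card = ∏ i, (s i).card := by
  rw [box, Finset.card_map, Fintype.card_piFinset]

/-- the exponents of sums of polynomials in one variable -/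
noncomputable def cross (t m : ℕ) : Finset (Fin t →₀ ℕ) :=
  insert 0 (univ.biUnion fun j : Fin t => (range (m + 1)).image (fun e => Finsupp.single j e))

theorem card_cross_add_box (m b : ℕ) :
    (cross t m + box t (fun _ => range b)).card ≤ b ^ t + t * (m * b ^ (t - 1)) := by
  classical
  have hsub : cross t m + box t (fun _ => range b) ⊆ box t (fun _ => range b) ∪
      univ.biUnion fun j : Fin t => box t (fun i => if i = j then Ico b (b + m) else range b) := by
    intro x hx
    obtain ⟨a, ha, β, hβ, rfl⟩ := mem_add.mp hx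
    rw [mem_box] at hβ
    rw [cross, mem_insert] at ha
    rcases ha with rfl | ha
    · rw [zero_add]
      exact mem_union_left _ (mem_box.mpr hβ)
    · obtain ⟨j, -, hj⟩ := mem_biUnion.mp ha
      obtain ⟨e, he, rfl⟩ := mem_image.mp hj
      rw [mem_range] at he
      by_cases hlt : β j + e < b
      · apply mem_union_left
        rw [mem_box]
        intro i
        rw [Finsupp.add_apply, mem_range]
        by_cases hij : i = j
        · subst hij
          rw [Finsupp.single_eq_same]
          omega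
        · rw [Finsupp.single_eq_of_ne hij, zero_add]
          exact mem_range.mp (hβ i)
      · apply mem_union_right
        rw [mem_biUnion]
        refine ⟨j, mem_univ j, ?_⟩
        rw [mem_box]
        intro i
        rw [Finsupp.add_apply]
        have h1 := mem_range.mp (hβ i)
        by_cases hij : i = j
        · subst hij
          rw [if_pos rfl, Finsupp.single_eq_same, mem_Ico]
          omega
        · rw [if_neg hij, Finsupp.single_eq_of_ne hij, zero_add]
          exact hβ i
  refine (card_le_card hsub).trans ((card_union_le _ _).trans ?_)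
  have h1 : (box t (fun _ => range b)).card = b ^ t := by
    rw [card_box]
    simp
  have h2 : ∀ j : Fin t, (box t (fun i => if i = j then Ico b (b + m) else range b)).card =
      m * b ^ (t - 1) := by
    intro j
    rw [card_box, ← Finset.mul_prod_erase univ _ (mem_univ j), if_pos rfl, Nat.card_Ico,
      Nat.add_sub_cancel_left]
    congr 1
    rw [Finset.prod_congr rfl (g := fun _ => b), Finset.prod_const, card_erase_of_mem (mem_univ j),
      card_univ, Fintype.card_fin]
    intro i hi
    rw [if_neg (ne_of_mem_erase hi), card_range]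
  refine Nat.add_le_add h1.le (card_biUnion_le.trans ?_)
  rw [Finset.sum_congr rfl (fun j _ => h2 j), Finset.sum_const, card_univ, Fintype.card_fin,
    smul_eq_mul]

theorem sum_mem_cross (θ : Fin t → ℂ) (m : ℕ) (P : Fin t → Polynomial QB)
    (hP : ∀ j, (P j).natDegree ≤ m) :
    ∑ j, Polynomial.aeval (θ j) (P j) ∈ Sp (mon θ) (cross t m) := by
  refine Submodule.sum_mem _ fun j _ => ?_
  rw [Polynomial.aeval_eq_sum_range]
  refine Submodule.sum_mem _ fun e he => Submodule.smul_mem _ _ (Submodule.subset_span ?_)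
  refine ⟨Finsupp.single j e, ?_, ?_⟩
  · have h1 : Finsupp.single j e ∈ cross t m := by
      rw [cross, mem_insert]
      right
      rw [mem_biUnion]
      refine ⟨j, mem_univ j, mem_image.mpr ⟨e, ?_, rfl⟩⟩
      rw [mem_range] at he ⊢
      have := hP j
      omega
    exact_mod_cast h1
  · unfold mon
    exact Finsupp.prod_single_index (h := fun i e => θ i ^ e) (pow_zero _)

/-- **Sums of polynomials in one variable.** -/
theorem separated {n : ℕ} (l : Fin n → ℂ) (hl : ∀ i, l i ∈ Lt) (hli : LinearIndependent QB l)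
    (c : ℂ) (hc : c ≠ 0) (θ : Fin t → ℂ) (m b : ℕ) (hbpos : 0 < b)
    (hθ : ∀ Q : MvPolynomial (Fin t) QB, (∀ j, Q.degreeOf j < b) → MvPolynomial.aeval θ Q = 0 →
      Q = 0)
    (h : ∀ i, c * l i ∈ Sp (mon θ) (cross t m)) (hb : n ≤ 2 * b ^ t + 1) :
    n ^ 2 / 4 ≤ t * (m * b ^ (t - 1)) := by
  classical
  have hB : b ^ t ≤ finrank QB (Sp (mon θ) (box t (fun _ => range b))) := by
    have h1 := card_le_Sp_mon θ (box t (fun _ => range b)) (by
      intro Q hQ hQ0
      refine hθ Q (fun j => ?_) hQ0
      rw [MvPolynomial.degreeOf_lt_iff hbpos]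
      intro a ha
      exact mem_range.mp (mem_box.mp (hQ ha) j))
    rw [card_box] at h1
    simpa using h1
  have h1 := sumset (mon θ) (mon_add θ) l hl hli c hc (cross t m) (box t (fun _ => range b))
    ⟨0, mem_insert_self _ _⟩ h (by omega)
  have h2 := card_cross_add_box (t := t) m b
  have h3 : (box t (fun _ => range b)).card = b ^ t := by
    rw [card_box]
    simp
  omega

end poly

end Pool.Agent.K9h57.LC
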