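import Pool.Agent.K9h57.LC.Normal
import Pool.Agent.K9h57.LC.Dim

set_option autoImplicit false

/-!
# The dimension of the spaces of bounded elements
-/

namespace Pool.Agent.K9h57.LC

open Module Polynomial IntermediateField

variable {κ E : Type} [Field κ] [Field E] [Algebra κ E]

/-- the space of the elements of `K` which are bounded by the `m`-th powers of the `u i` -/
def Ms (K : IntermediateField κ E) {σ : Type} (u : σ → E) (m : ℕ) : Submodule κ E where
  carrier := {g | g ∈ K ∧ Bd κ u m g}
  add_mem' := fun {_ _} ha hb => ⟨K.add_mem ha.1 hb.1, Bd_add ha.2 hb.2⟩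
  zero_mem' := ⟨K.zero_mem, Bd_zero u m⟩
  smul_mem' := fun c _ ha => ⟨K.smul_mem ha.1, Bd_smul c ha.2⟩

theorem Bd_zero_alg {σ : Type} {u : σ → E} {z : E} (h : Bd κ u 0 z) : IsAlgebraic κ z := by
  obtain ⟨q, hq, hd, h0⟩ := (Bd_iff u 0 z).mp h
  have hmon : (q.map (MvPolynomial.constantCoeff (R := κ) (σ := σ))).Monic := hq.map _
  refine ⟨q.map MvPolynomial.constantCoeff, hmon.ne_zero, ?_⟩
  rw [aeval_def, eval₂_map, ← h0, eval₂_eq_sum_range, eval₂_eq_sum_range]
  apply Finset.sum_congr rfl
  intro i _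
  congr 1
  have h1 := hd i
  rw [zero_mul, Nat.le_zero] at h1
  have h2 := MvPolynomial.totalDegree_eq_zero_iff_eq_C.mp h1
  conv_rhs => rw [h2]
  change algebraMap κ E (MvPolynomial.constantCoeff (q.coeff i)) = MvPolynomial.aeval u _
  rw [MvPolynomial.aeval_C]
  rfl

section tail

variable {j : ℕ} {u : Fin (j + 1) → E}

theorem indep_tail (hu : AlgebraicIndependent κ u) :
    AlgebraicIndependent (IntermediateField.adjoin κ {u 0}) (fun i : Fin j => u i.succ) := by
  have h1 : AlgebraicIndependent κ (Sum.elim (fun i : Fin j => u i.succ) (fun _ : Unit => u 0)) := by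
    have h2 := hu.comp (Sum.elim Fin.succ (fun _ : Unit => (0 : Fin (j + 1)))) (by
      rintro (a | a) (b | b) hab
      · simpa using hab
      · exact absurd hab (Fin.succ_ne_zero a)
      · exact absurd hab.symm (Fin.succ_ne_zero b)
      · rfl)
    have e : u ∘ (Sum.elim Fin.succ (fun _ : Unit => (0 : Fin (j + 1)))) =
        Sum.elim (fun i : Fin j => u i.succ) (fun _ : Unit => u 0) := by
      funext a
      rcases a with a | a <;> rfl
    rwa [e] at h2
  have h3 := (AlgebraicIndependent.sumElim_iff.mp h1).2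
  have e : Set.range (fun _ : Unit => u 0) = {u 0} := Set.range_const
  rw [e] at h3
  open scoped IntermediateField.algebraAdjoinAdjoin in
  exact h3.extendScalars (IntermediateField.adjoin κ {u 0})

theorem adjoin_tail : (IntermediateField.adjoin (IntermediateField.adjoin κ {u 0})
    (Set.range fun i : Fin j => u i.succ)).toSubfield =
      (IntermediateField.adjoin κ (Set.range u)).toSubfield := by
  have h1 := adjoin_adjoin_left (F := κ) (S := {u 0}) (Set.range fun i : Fin j => u i.succ)
  have e : ({u 0} ∪ Set.range fun i : Fin j => u i.succ) = Set.range u := by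
    ext x
    constructor
    · rintro (h | ⟨i, rfl⟩)
      · rw [Set.mem_singleton_iff] at h
        exact ⟨0, h.symm⟩
      · exact ⟨i.succ, rfl⟩
    · rintro ⟨i, rfl⟩
      refine Fin.cases ?_ (fun i => ?_) i
      · exact Or.inl rfl
      · exact Or.inr ⟨i, rfl⟩
  rw [e] at h1
  rw [← h1]
  rfl

theorem Rs_tail : Rs κ u ≤ Rs (IntermediateField.adjoin κ {u 0}) (fun i : Fin j => u i.succ) := by
  intro ρ hρ
  have hρ' : ρ ∈ (Algebra.adjoin κ (insert X (Set.range fun i => C (u i) * X)) :
    Subalgebra κ E[X]) := hρ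
  clear hρ
  induction hρ' using Algebra.adjoin_induction with
  | mem x hx =>
    rcases hx with rfl | ⟨i, rfl⟩
    · exact Rs_X _
    · refine Fin.cases ?_ (fun i => ?_) i
      · exact Subring.mul_mem _ (Rs_alg _ (⟨u 0, IntermediateField.mem_adjoin_simple_self κ (u 0)⟩ :
          IntermediateField.adjoin κ {u 0})) (Rs_X _)
      · exact Rs_u _ i
  | algebraMap r =>
    exact Rs_alg _ (algebraMap κ (IntermediateField.adjoin κ {u 0}) r)
  | add x y _ _ hx hy => exact Subring.add_mem _ hx hy
  | mul x y _ _ hx hy => exact Subring.mul_mem _ hx hy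

theorem Bd_tail {m : ℕ} {g : E} (h : Bd κ u m g) :
    Bd (IntermediateField.adjoin κ {u 0}) (fun i : Fin j => u i.succ) m g := int_mono Rs_tail h

theorem indepT_poly (hu0 : u 0 ≠ 0) (K : IntermediateField κ E) (hK : ∀ i, u i ∈ K) (m : ℕ)
    (V : Submodule κ E)
    (hdiv : ∀ z ∈ K, (MvPolynomial.aeval u : MvPolynomial (Fin (j + 1)) κ →ₐ[κ] E).toRingHom.IsIntegralElem z →
      Bd κ u m (u 0 * z) → u 0 * z ∈ V)
    {ι : Type} [Fintype ι] (b : ι → E) (hb : ∀ i, b i ∈ Ms K u m)
    (hind : ∀ c : ι → κ, ∑ i, c i • b i ∈ V → ∀ i, c i = 0) (N : ℕ) :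
    ∀ p : ι → κ[X], (∀ i, (p i).natDegree ≤ N) → ∑ i, aeval (u 0) (p i) * b i = 0 →
      ∀ i, p i = 0 := by
  set φ := (MvPolynomial.aeval u : MvPolynomial (Fin (j + 1)) κ →ₐ[κ] E).toRingHom with hφ
  have hφu : ∀ q : κ[X], φ.IsIntegralElem (aeval (u 0) q) := by
    intro q
    have h1 : aeval (u 0) q = φ (aeval (MvPolynomial.X 0) q) := by
      have h2 := Polynomial.map_aeval_eq_aeval_map (S := MvPolynomial (Fin (j + 1)) κ) (T := κ)
        (U := E) (φ := RingHom.id κ) (ψ := φ) (by
          ext a
          simp [hφ]) q (MvPolynomial.X 0)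
      rw [h2, Polynomial.map_id]
      congr 1
      rw [hφ]
      simp
    rw [h1]
    exact φ.isIntegralElem_map
  have hsum : ∀ q : ι → κ[X], φ.IsIntegralElem (∑ i, aeval (u 0) (q i) * b i) := by
    intro q
    have : ∀ s : Finset ι, φ.IsIntegralElem (∑ i ∈ s, aeval (u 0) (q i) * b i) := by
      classical
      intro s
      induction s using Finset.induction_on with
      | empty => rw [Finset.sum_empty]; exact φ.isIntegralElem_zero
      | insert a s ha ih =>
        rw [Finset.sum_insert ha]
        exact RingHom.IsIntegralElem.add φ (RingHom.IsIntegralElem.mul φ (hφu _) (Bd_int (hb a).2)) ih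
    exact this Finset.univ
  have hKs : ∀ q : ι → κ[X], ∑ i, aeval (u 0) (q i) * b i ∈ K := by
    intro q
    refine sum_mem fun i _ => K.mul_mem ?_ (hb i).1
    have h1 : aeval (u 0) (q i) ∈ K.toSubalgebra := by
      have h2 : u 0 ∈ K.toSubalgebra := hK 0
      have h3 : aeval (u 0) (q i) ∈ Algebra.adjoin κ {u 0} := by
        rw [Algebra.adjoin_singleton_eq_range_aeval]
        exact ⟨_, rfl⟩
      exact Algebra.adjoin_le (by rintro _ rfl; exact h2) h3
    exact h1
  induction N with
  | zero =>
    intro p hp h0 i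
    have h1 : ∀ i, p i = C ((p i).coeff 0) := fun i => eq_C_of_natDegree_le_zero (hp i)
    have h2 : ∑ i, (p i).coeff 0 • b i = 0 := by
      rw [← h0]
      apply Finset.sum_congr rfl
      intro i _
      conv_rhs => rw [h1 i]
      rw [aeval_C, Algebra.smul_def]
    have h3 := hind (fun i => (p i).coeff 0) (by rw [h2]; exact V.zero_mem) i
    rw [h1 i, h3, C_0]
  | succ N ih =>
    intro p hp h0
    have hX : ∀ i, aeval (u 0) (p i) = algebraMap κ E ((p i).coeff 0) +
        u 0 * aeval (u 0) (p i).divX := by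
      intro i
      conv_lhs => rw [← divX_mul_X_add (p i)]
      rw [map_add, map_mul, aeval_X, aeval_C]
      ring
    have h1 : ∑ i, (p i).coeff 0 • b i = u 0 * (-∑ i, aeval (u 0) (p i).divX * b i) := by
      have h2 : ∑ i, (p i).coeff 0 • b i + u 0 * ∑ i, aeval (u 0) (p i).divX * b i = 0 := by
        rw [← h0, Finset.mul_sum, ← Finset.sum_add_distrib]
        apply Finset.sum_congr rfl
        intro i _
        rw [hX i, Algebra.smul_def]
        ring
      rw [mul_neg]
      exact eq_neg_of_add_eq_zero_left h2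
    have hz1 : (-∑ i, aeval (u 0) (p i).divX * b i) ∈ K := K.neg_mem (hKs _)
    have hz2 : φ.IsIntegralElem (-∑ i, aeval (u 0) (p i).divX * b i) :=
      RingHom.IsIntegralElem.neg φ (hsum _)
    have hmem : ∑ i, (p i).coeff 0 • b i ∈ Ms K u m :=
      Submodule.sum_mem _ fun i _ => Submodule.smul_mem _ _ (hb i)
    have hV : ∑ i, (p i).coeff 0 • b i ∈ V := by
      rw [h1]
      refine hdiv _ hz1 hz2 ?_
      rw [← h1]
      exact hmem.2
    have hc := hind _ hV
    have h3 : ∑ i, aeval (u 0) (p i).divX * b i = 0 := by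
      have h4 : u 0 * (-∑ i, aeval (u 0) (p i).divX * b i) = 0 := by
        rw [← h1]
        apply Finset.sum_eq_zero
        intro i _
        rw [hc i, zero_smul]
      have h5 := (mul_eq_zero.mp h4).resolve_left hu0
      rwa [neg_eq_zero] at h5
    have h6 := ih (fun i => (p i).divX) (fun i => by
      rw [natDegree_divX_eq_natDegree_tsub_one]
      have := hp i
      omega) h3
    intro i
    rw [← divX_mul_X_add (p i), h6 i, hc i]
    simp

open scoped IntermediateField.algebraAdjoinAdjoin in
theorem indepT (hu0 : u 0 ≠ 0) (K : IntermediateField κ E) (hK : ∀ i, u i ∈ K) (m : ℕ)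
    (V : Submodule κ E)
    (hdiv : ∀ z ∈ K, (MvPolynomial.aeval u : MvPolynomial (Fin (j + 1)) κ →ₐ[κ] E).toRingHom.IsIntegralElem z →
      Bd κ u m (u 0 * z) → u 0 * z ∈ V)
    {ι : Type} [Fintype ι] (b : ι → E) (hb : ∀ i, b i ∈ Ms K u m)
    (hind : ∀ c : ι → κ, ∑ i, c i • b i ∈ V → ∀ i, c i = 0) :
    LinearIndependent (IntermediateField.adjoin κ {u 0}) b := by
  classical
  rw [← LinearIndependent.iff_fractionRing (Algebra.adjoin κ {u 0})
    (IntermediateField.adjoin κ {u 0})]
  rw [Fintype.linearIndependent_iff]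
  intro g hg
  have hp : ∀ i, ∃ p : κ[X], aeval (u 0) p = (g i : E) := by
    intro i
    have h1 : (g i : E) ∈ (aeval (R := κ) (u 0)).range := by
      rw [← Algebra.adjoin_singleton_eq_range_aeval]
      exact (g i).2
    obtain ⟨p, hp⟩ := h1
    exact ⟨p, hp⟩
  choose p hp using hp
  have h2 := indepT_poly hu0 K hK m V hdiv b hb hind
    (Finset.univ.sup fun i => (p i).natDegree) p
    (fun i => Finset.le_sup (f := fun i => (p i).natDegree) (Finset.mem_univ i)) (by
      rw [← hg]
      apply Finset.sum_congr rfl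
      intro i _
      rw [hp i]
      rfl)
  intro i
  have h3 := hp i
  rw [h2 i, map_zero] at h3
  exact Subtype.ext h3.symm

end tail

end Pool.Agent.K9h57.LC
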