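import Mathlib

set_option autoImplicit false

/-!
# Spaces of functions with prescribed poles, by valuation rings

`k ⊆ K ⊆ E` fields. For a weight `w`, which attaches an element `w O` of `E` to every valuation ring
`O` of `E`, `Mw K w` is the space of the `g ∈ K` with `g * w O ∈ O` for all valuation rings `O`
containing `k`. For `x ∈ E` the weight `tw x` is `1` if `x ∈ O` and `x⁻¹` otherwise: the
multiplication of `w` by `tw x` allows the poles of `x`.
-/

namespace Pool.Agent.K9h57.LC

open Module Polynomial

variable {k E : Type*} [Field k] [Field E] [Algebra k E]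

/-- `O` contains `k` -/
def Over (k : Type*) {E : Type*} [Field k] [Field E] [Algebra k E] (O : ValuationSubring E) : Prop :=
  ∀ a : k, algebraMap k E a ∈ O

/-- the space of the elements of `K` with poles bounded by the weight `w` -/
def Mw (K : IntermediateField k E) (w : ValuationSubring E → E) : Submodule k E where
  carrier := {g | g ∈ K ∧ ∀ O : ValuationSubring E, Over k O → g * w O ∈ O}
  add_mem' := by
    rintro a b ⟨ha, ha'⟩ ⟨hb, hb'⟩
    refine ⟨K.add_mem ha hb, fun O hO => ?_⟩
    rw [add_mul]
    exact O.add_mem _ _ (ha' O hO) (hb' O hO)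
  zero_mem' := ⟨K.zero_mem, fun O _ => by rw [zero_mul]; exact O.zero_mem⟩
  smul_mem' := by
    rintro c a ⟨ha, ha'⟩
    refine ⟨by rw [Algebra.smul_def]; exact K.mul_mem (K.algebraMap_mem c) ha, fun O hO => ?_⟩
    rw [Algebra.smul_def, mul_assoc]
    exact O.mul_mem _ _ (hO c) (ha' O hO)

theorem mem_Mw {K : IntermediateField k E} {w : ValuationSubring E → E} {g : E} :
    g ∈ Mw K w ↔ g ∈ K ∧ ∀ O : ValuationSubring E, Over k O → g * w O ∈ O := Iff.rfl

open Classical in
/-- the weight which allows the poles of `x` -/
noncomputable def tw (x : E) (O : ValuationSubring E) : E := if x ∈ O then 1 else x⁻¹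

theorem tw_mem (x : E) (O : ValuationSubring E) : tw x O ∈ O := by
  unfold tw
  split_ifs with h
  · exact O.one_mem
  · exact (O.mem_or_inv_mem x).resolve_left h

theorem mul_tw_mem (x : E) (O : ValuationSubring E) : x * tw x O ∈ O := by
  unfold tw
  split_ifs with h
  · rwa [mul_one]
  · have hx : x ≠ 0 := fun h0 => h (by rw [h0]; exact O.zero_mem)
    rw [mul_inv_cancel₀ hx]
    exact O.one_mem

theorem Mw_mul (K : IntermediateField k E) (v w : ValuationSubring E → E) :
    Mw K v * Mw K w ≤ Mw K (fun O => v O * w O) := by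
  rw [Submodule.mul_le]
  rintro a ⟨ha, ha'⟩ b ⟨hb, hb'⟩
  refine ⟨K.mul_mem ha hb, fun O hO => ?_⟩
  have h := O.mul_mem _ _ (ha' O hO) (hb' O hO)
  have e : a * v O * (b * w O) = a * b * (v O * w O) := by ring
  rwa [e] at h

theorem Mw_mono (K : IntermediateField k E) (v w : ValuationSubring E → E)
    (hw : ∀ O, w O ∈ O) : Mw K v ≤ Mw K (fun O => v O * w O) := by
  rintro a ⟨ha, ha'⟩
  refine ⟨ha, fun O hO => ?_⟩
  rw [← mul_assoc]
  exact O.mul_mem _ _ (ha' O hO) (hw O)

/-- an element which lies in all valuation rings containing `k` is algebraic over `k` -/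
theorem isAlgebraic_of_forall (g : E) (h : ∀ O : ValuationSubring E, Over k O → g ∈ O) :
    IsAlgebraic k g := by
  by_contra hg
  have hg' : g ∉ (integralClosure k E).toSubring := fun hm => by
    have : IsIntegral k g := hm
    exact hg this.isAlgebraic
  have hic : IsIntegrallyClosedIn (integralClosure k E).toSubring E := by
    change IsIntegrallyClosedIn (integralClosure k E) E
    infer_instance
  obtain ⟨V, hV, hgV⟩ :=
    Subring.exists_le_valuationSubring_of_isIntegrallyClosedIn hg'
  refine hgV (h V fun a => hV ?_)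
  change IsIntegral k (algebraMap k E a)
  exact isIntegral_algebraMap

end Pool.Agent.K9h57.LC
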